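import Pool.Agent.T3H86.CT.Step

/-!
# Without cube terms there are crosses
-/

set_option autoImplicit false

namespace Pool.Agent.T3H86.CT

open Finset

variable {D : Type} {F : Ops D}

/-- The binary term operations. -/
def T2 (F : Ops D) : Set (D × D → D) := {f | Term F fun x : Bool → D => f (x false, x true)}

theorem fst_mem : (Prod.fst : D × D → D) ∈ T2 F := Term.proj false

theorem snd_mem : (Prod.snd : D × D → D) ∈ T2 F := Term.proj true

theorem T2_app (f : Σ n : ℕ, (Fin n → D) → D) (hf : f ∈ F) (g : Fin f.1 → D × D → D)
    (hg : ∀ l, g l ∈ T2 F) : (fun p => f.2 fun l => g l p) ∈ T2 F :=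
  Term.app f hf (fun l x => g l (x false, x true)) hg

theorem T2_comp {f a b : D × D → D} (hf : f ∈ T2 F) (ha : a ∈ T2 F) (hb : b ∈ T2 F) :
    (fun p => f (a p, b p)) ∈ T2 F := by
  have := Term.comp hf (fun (i : Bool) (x : Bool → D) => if i then b (x false, x true) else
    a (x false, x true)) (by
      intro i
      cases i
      · exact ha
      · exact hb)
  exact this

variable {s : ℕ}

/-- The generators of the relation which belongs to `U`. -/
def crossGen (U : Fin s → Set (D × D → D)) : Set (Fin s → D × D → D) :=
  {w | ∃ i, w i ∈ U i ∧ ∀ j, j ≠ i → w j = Prod.fst ∨ w j = Prod.snd}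

/-- The cross. -/
def cross (F : Ops D) (U : Fin s → Set (D × D → D)) : Set (Fin s → D × D → D) :=
  {w | (∀ i, w i ∈ T2 F) ∧ ∃ i, w i ∈ U i}

theorem mem_sg_of_cross (hF : Idem F) {U : Fin s → Set (D × D → D)} {w : Fin s → D × D → D}
    (hw : w ∈ cross F U) : w ∈ Sg F (crossGen U) := by
  classical
  obtain ⟨hw, i, hi⟩ := hw
  have key : ∀ (T : Finset (Fin s)), i ∉ T → ∀ v : Fin s → D × D → D, v i ∈ U i →
      (∀ j ∈ T, v j ∈ T2 F) → (∀ j, j ∉ T → j ≠ i → v j = Prod.fst ∨ v j = Prod.snd) →
        v ∈ Sg F (crossGen U) := by
    intro T
    induction T using Finset.induction_on with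
    | empty =>
      intro _ v hv _ h
      exact subset_Sg _ ⟨i, hv, fun j hj => h j (notMem_empty _) hj⟩
    | insert a T ha ih =>
      intro hiT v hv h1 h2
      have hai : a ≠ i := fun h => hiT (h ▸ mem_insert_self _ _)
      have hiT' : i ∉ T := fun h => hiT (mem_insert_of_mem h)
      have h3 : ∀ g : D × D → D, (g = Prod.fst ∨ g = Prod.snd) →
          Function.update v a g ∈ Sg F (crossGen U) := by
        intro g hg
        apply ih hiT'
        · rw [Function.update_of_ne hai.symm]; exact hv
        · intro j hj
          by_cases hja : j = a
          · rw [hja, Function.update_self]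
            rcases hg with rfl | rfl
            · exact fst_mem
            · exact snd_mem
          · rw [Function.update_of_ne hja]; exact h1 j (mem_insert_of_mem hj)
        · intro j hj hji
          by_cases hja : j = a
          · rw [hja, Function.update_self]; exact hg
          · rw [Function.update_of_ne hja]
            exact h2 j (fun h => (mem_insert.1 h).elim hja hj) hji
      have h4 := h1 a (mem_insert_self _ _)
      have := closed_two (closed_Sg _) h4 (h3 _ (Or.inl rfl)) (h3 _ (Or.inr rfl))
      convert this using 1
      funext j p
      by_cases hja : j = a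
      · rw [hja]
        simp
      · rw [Function.update_of_ne hja, Function.update_of_ne hja]
        exact (Term.idem hF h4 (v j p)).symm
  exact key (univ.erase i) (by simp) w hi (fun j _ => hw j) (fun j hj hji => by simp [hji] at hj)

theorem exists_cross [Finite D] (hF : Idem F) (hC : ¬ Cube F s) :
    ∃ U : Fin s → Set (D × D → D), (∀ i, Prod.snd ∈ U i) ∧ (∀ i, Prod.fst ∉ U i) ∧
      Closed F (cross F U) := by
  classical
  let cand : Set (Fin s → Set (D × D → D)) :=
    {U | (∀ i, Prod.snd ∈ U i) ∧ (∀ i, U i ⊆ T2 F) ∧ (e ∅ : Fin s → D × D → D) ∉ Sg F (crossGen U)}
  have hne : cand.Nonempty := by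
    refine ⟨fun _ => {Prod.snd}, fun i => rfl, fun i => ?_, fun h => ?_⟩
    · rw [Set.singleton_subset_iff]
      exact snd_mem
    · apply hC
      rw [cube_iff, ← zero_mem_gen]
      refine Sg_le (closed_gen _) ?_ h
      rintro w ⟨i, hi, hw⟩
      have : w = e (univ.filter fun j => w j = Prod.snd) := by
        funext j p
        by_cases hj : w j = Prod.snd
        · simp [e, hj]
        · have h1 : w j = Prod.fst := by
            by_cases hji : j = i
            · exact absurd (hji ▸ hi) hj
            · exact (hw j hji).resolve_right hj
          simp only [e, mem_filter, mem_univ, true_and]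
          rw [if_neg hj, h1]
      rw [this]
      exact e_mem_gen ⟨i, by simpa using hi⟩
  obtain ⟨U, hU, hmax⟩ := Set.exists_max_image cand
    (fun U => toLex fun i => (U i).ncard) (Set.toFinite _) hne
  obtain ⟨hU1, hU2, hU3⟩ := hU
  set W := Sg F (crossGen U) with hW
  have hWc : Closed F W := closed_Sg _
  have hWT : ∀ w ∈ W, ∀ i, w i ∈ T2 F := by
    intro w hw
    refine hw {w | ∀ i, w i ∈ T2 F} ?_ ?_
    · intro f hf v hv i
      exact T2_app f hf (fun l => v l i) fun l => hv l i
    · rintro v ⟨i, hi, hv⟩ j
      by_cases hj : j = i
      · rw [hj]; exact hU2 i hi
      · rcases hv j hj with h | h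
        · rw [h]; exact fst_mem
        · rw [h]; exact snd_mem
  have hmain : ∀ b ∈ W, ∃ i, b i ∈ U i := by
    intro b hb
    by_contra hcon
    push Not at hcon
    have hbT := hWT b hb
    have key : ∀ t, t ≤ s → (fun (i : Fin s) (p : D × D) => if (i : ℕ) < t then p.1 else b i p) ∈ W := by
      intro t
      induction t with
      | zero =>
        intro _
        simpa using hb
      | succ t ih =>
        intro ht
        have ih := ih (by omega)
        set j : Fin s := ⟨t, ht⟩ with hj
        set U' : Fin s → Set (D × D → D) := fun i => if i < j then U i else if i = j then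
          insert (b j) (U j) else {Prod.snd} with hU'
        have hU'lt : ∀ i, i < j → U' i = U i := fun i hi => by simp only [hU', if_pos hi]
        have hU'j : U' j = insert (b j) (U j) := by simp [hU']
        have hU'gt : ∀ i, j < i → U' i = {Prod.snd} := fun i hi => by
          simp only [hU']
          rw [if_neg (by omega), if_neg (by omega)]
        have hU'T : ∀ i, U' i ⊆ T2 F := by
          intro i
          rcases lt_trichotomy i j with h | h | h
          · rw [hU'lt i h]; exact hU2 i
          · rw [h, hU'j]
            exact Set.insert_subset (hbT j) (hU2 j)
          · rw [hU'gt i h, Set.singleton_subset_iff]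
            exact snd_mem
        have hU's : ∀ i, Prod.snd ∈ U' i := by
          intro i
          rcases lt_trichotomy i j with h | h | h
          · rw [hU'lt i h]; exact hU1 i
          · rw [h, hU'j]
            exact Set.mem_insert_of_mem _ (hU1 j)
          · rw [hU'gt i h]
            rfl
        have hlex : toLex (fun i => (U i).ncard) < toLex fun i => (U' i).ncard := by
          refine ⟨j, fun i hi => ?_, ?_⟩
          · show (U i).ncard = (U' i).ncard
            rw [hU'lt i hi]
          · show (U j).ncard < (U' j).ncard
            rw [hU'j, Set.ncard_insert_of_notMem (hcon j) (Set.toFinite _)]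
            exact Nat.lt_succ_self _
        have h0 : (e ∅ : Fin s → D × D → D) ∈ Sg F (crossGen U') := by
          by_contra h0
          exact absurd (hmax U' ⟨hU's, hU'T, h0⟩) (not_le.2 hlex)
        let Φ : (Fin s → D × D → D) → Fin s → D × D → D := fun w i p =>
          if i ≤ j then w i p else w i (b i p, p.2)
        have hΦ : Φ (e ∅) ∈ W := by
          refine h0 {w | Φ w ∈ W} ?_ ?_
          · intro f hf v hv
            have := hWc f hf _ hv
            show Φ _ ∈ W
            convert this using 1
            funext i p
            simp only [Φ]
            split_ifs <;> rfl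
          · rintro w ⟨i₀, hi₀, hw⟩
            show Φ w ∈ W
            have hwT : ∀ i, w i ∈ T2 F := by
              intro i
              by_cases hi : i = i₀
              · rw [hi]; exact hU'T i₀ hi₀
              · rcases hw i hi with h | h
                · rw [h]; exact fst_mem
                · rw [h]; exact snd_mem
            have hΦT : ∀ i, Φ w i ∈ T2 F := by
              intro i
              by_cases hi : i ≤ j
              · have : Φ w i = w i := by
                  funext p
                  simp only [Φ, if_pos hi]
                rw [this]
                exact hwT i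
              · have : Φ w i = fun p => w i (b i p, p.2) := by
                  funext p
                  simp only [Φ, if_neg hi]
                rw [this]
                exact T2_comp (hwT i) (hbT i) snd_mem
            have hle : ∀ i, i ≤ j → Φ w i = w i := fun i hi => by
              funext p
              simp only [Φ, if_pos hi]
            have hsnd : ∀ i, w i = Prod.snd → Φ w i = Prod.snd := fun i hi => by
              funext p
              simp only [Φ, hi, ite_self]
            have hcr : ∀ i, Φ w i ∈ U i → Φ w ∈ W := fun i hi =>
              mem_sg_of_cross hF ⟨hΦT, i, hi⟩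
            rcases lt_trichotomy i₀ j with h | h | h
            · apply hcr i₀
              rw [hle i₀ h.le, ← hU'lt i₀ h]
              exact hi₀
            · subst h
              rw [hU'j] at hi₀
              rcases hi₀ with hi₀ | hi₀
              · by_cases hex : ∃ i, i ≠ j ∧ w i = Prod.snd
                · obtain ⟨i, -, hi⟩ := hex
                  apply hcr i
                  rw [hsnd i hi]
                  exact hU1 i
                · push Not at hex
                  convert ih using 1
                  funext i p
                  rcases lt_trichotomy i j with h1 | h1 | h1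
                  · rw [hle i h1.le, (hw i h1.ne).resolve_right (hex i h1.ne)]
                    have : (i : ℕ) < t := h1
                    simp [this]
                  · rw [h1, hle j le_rfl, hi₀]
                    simp [hj]
                  · have h2 : ¬ i ≤ j := not_le.2 h1
                    have h3 : ¬ (i : ℕ) < t := by
                      have : t < (i : ℕ) := h1
                      omega
                    simp only [Φ, if_neg h2, if_neg h3]
                    rw [(hw i h1.ne').resolve_right (hex i h1.ne')]
              · apply hcr j
                rw [hle j le_rfl]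
                exact hi₀
            · rw [hU'gt i₀ h] at hi₀
              apply hcr i₀
              rw [hsnd i₀ hi₀]
              exact hU1 i₀
        convert hΦ using 1
        funext i p
        simp only [Φ, e, notMem_empty, if_false]
        have : (i : ℕ) < t + 1 ↔ i ≤ j := by
          rw [Fin.le_def, hj]
          exact Nat.lt_succ_iff
        simp only [this]
    have := key s le_rfl
    apply hU3
    convert this using 1
    funext i p
    simp [e]
  refine ⟨U, hU1, fun i hi => hU3 (subset_Sg _ ⟨i, ?_, fun j _ => Or.inl ?_⟩), ?_⟩
  · have : (e ∅ i : D × D → D) = Prod.fst := by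
      funext p
      simp [e]
    rw [this]
    exact hi
  · funext p
    simp [e]
  · have : cross F U = W := by
      apply Set.Subset.antisymm
      · exact fun w hw => mem_sg_of_cross hF hw
      · exact fun w hw => ⟨hWT w hw, hmain w hw⟩
    rw [this]
    exact hWc

end Pool.Agent.T3H86.CT
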