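import Mathlib

/-!
# Colourings given by relations with prescribed polymorphisms: definitions
-/

set_option autoImplicit false

namespace Pool.Agent.T3H86.CT

open Finset

/-- Sets of operations (of any finite arities) on `D`. -/
abbrev Ops (D : Type) : Type := Set (Σ n : ℕ, (Fin n → D) → D)

variable {D : Type}

/-- All the operations in `F` are idempotent. -/
def Idem (F : Ops D) : Prop := ∀ f ∈ F, ∀ x : D, f.2 (fun _ => x) = x

/-- `E` is a set of families, indexed by `J`, of words over `D` whose letters are indexed by `B`.
It is preserved by the operations in `F`, which act letter by letter. -/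
def Closed (F : Ops D) {J B : Type} (E : Set (J → B → D)) : Prop :=
  ∀ f ∈ F, ∀ v : Fin f.1 → J → B → D, (∀ l, v l ∈ E) → (fun j b => f.2 fun l => v l j b) ∈ E

/-- The operations, with arguments indexed by `ι`, which are composed of projections and
operations in `F`. -/
inductive Term (F : Ops D) {ι : Type} : ((ι → D) → D) → Prop
  | proj (i : ι) : Term F fun x => x i
  | app (f : Σ n : ℕ, (Fin n → D) → D) (hf : f ∈ F) (g : Fin f.1 → (ι → D) → D)
      (hg : ∀ l, Term F (g l)) : Term F fun x => f.2 fun l => g l x

/-- `F` has a cube term of dimension `k`: an operation `τ`, composed of operations in `F`, whose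
arguments are indexed by the nonempty subsets `S` of `{0, …, k - 1}`, such that for every `i` the
value is `x` if the arguments with `i ∈ S` are `y` and the other ones are `x`. -/
def Cube (F : Ops D) (k : ℕ) : Prop :=
  ∃ τ : ({S : Finset (Fin k) // S.Nonempty} → D) → D, Term F τ ∧
    ∀ (i : Fin k) (x y : D), τ (fun S => if i ∈ S.1 then y else x) = x

/-- The two-colouring `c` of the `r`-subsets of `{0, …, N - 1}` is given by one relation which is
preserved by `F`: the vertices have names, which are words of the same length over `D`, and the
colour of `x 0 < … < x (r - 1)` tells whether the names of the `x i` are in the relation. -/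
def Pol (F : Ops D) (r N : ℕ) (c : Finset ℕ → Bool) : Prop :=
  ∃ (m : ℕ) (ν : ℕ → Fin m → D) (E : Set (Fin r → Fin m → D)), Closed F E ∧
    ∀ x : Fin r → ℕ, StrictMono x → (∀ i, x i < N) →
      (c (univ.image x) = true ↔ (fun i => ν (x i)) ∈ E)

/-- The colouring `c` of the `r`-subsets of `{0, …, N - 1}` is determined by `L` relations which are
preserved by `F` (with different names of the vertices for the different relations). -/
def Det (F : Ops D) (L : ℕ) {κ : Type} (r N : ℕ) (c : Finset ℕ → κ) : Prop :=
  ∃ (m : Fin L → ℕ) (ν : ∀ l, ℕ → Fin (m l) → D) (E : ∀ l, Set (Fin r → Fin (m l) → D)),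
    (∀ l, Closed F (E l)) ∧
    ∀ x y : Fin r → ℕ, StrictMono x → StrictMono y → (∀ i, x i < N) → (∀ i, y i < N) →
      (∀ l, (fun i => ν l (x i)) ∈ E l ↔ (fun i => ν l (y i)) ∈ E l) →
        c (univ.image x) = c (univ.image y)

end Pool.Agent.T3H86.CT
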