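import Pool.Agent.T3H86.CT.Lower

/-!
# Examples
-/

set_option autoImplicit false

namespace Pool.Agent.T3H86.CT

open Finset

variable {D : Type} {F : Ops D}

theorem not_cube_of_closed {k : ℕ} {R : Set (Fin k → Unit → D)} (hR : Closed F R) (x y : D)
    (h : ∀ S : Finset (Fin k), S.Nonempty → (fun i _ => if i ∈ S then y else x) ∈ R)
    (h0 : (fun _ _ => x) ∉ R) : ¬ Cube F k := by
  rintro ⟨τ, hτ, hh⟩
  have := closed_term hτ hR (fun S => fun i _ => if i ∈ S.1 then y else x) (fun S => h S.1 S.2)
  apply h0
  convert this using 1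
  funext i _
  exact (hh i x y).symm

/-- At least two of `h + 1` arguments are true. -/
def thr (h : ℕ) : Ops Bool :=
  {⟨h + 1, fun x => decide (2 ≤ (univ.filter fun i => x i = true).card)⟩}

/-- The sum modulo two of three arguments. -/
def minority : Ops Bool := {⟨3, fun x => xor (x 0) (xor (x 1) (x 2))⟩}

/-- The conjunction of two arguments. -/
def conj : Ops Bool := {⟨2, fun x => x 0 && x 1⟩}

theorem idem_thr {h : ℕ} (hh : 2 ≤ h) : Idem (thr h) := by
  intro f hf x
  rw [thr, Set.mem_singleton_iff] at hf
  subst hf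
  cases x
  · simp
  · simp
    omega

theorem idem_minority : Idem minority := by
  intro f hf x
  rw [minority, Set.mem_singleton_iff] at hf
  subst hf
  cases x <;> rfl

theorem idem_conj : Idem conj := by
  intro f hf x
  rw [conj, Set.mem_singleton_iff] at hf
  subst hf
  cases x <;> rfl

theorem not_cube_thr (h : ℕ) : ¬ Cube (thr h) h := by
  refine not_cube_of_closed (R := {w | ∃ i, w i () = true}) ?_ false true ?_ ?_
  · intro f hf v hv
    rw [thr, Set.mem_singleton_iff] at hf
    subst hf
    choose i hi using hv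
    obtain ⟨a, b, hab, he⟩ := Fintype.exists_ne_map_eq_of_card_lt i (by simp)
    refine ⟨i a, ?_⟩
    simp only [decide_eq_true_eq]
    have h1 : ({a, b} : Finset (Fin (h + 1))) ⊆ univ.filter fun l => v l (i a) () = true := by
      intro l hl
      rw [mem_filter]
      refine ⟨mem_univ _, ?_⟩
      rcases mem_insert.1 hl with rfl | hl
      · exact hi _
      · rw [mem_singleton.1 hl, he]
        exact hi _
    have h2 := card_le_card h1
    rwa [card_pair hab] at h2
  · rintro S ⟨i, hi⟩
    exact ⟨i, by simp [hi]⟩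
  · rintro ⟨i, hi⟩
    simp at hi

theorem cube_thr {h : ℕ} (hh : 2 ≤ h) : Cube (thr h) (h + 1) := by
  refine ⟨fun x => decide (2 ≤ (univ.filter fun l : Fin (h + 1) =>
    x ⟨{l}, singleton_nonempty l⟩ = true).card), ?_, fun i x y => ?_⟩
  · exact Term.app (F := thr h) (ι := {S : Finset (Fin (h + 1)) // S.Nonempty})
      ⟨h + 1, fun x => decide (2 ≤ (univ.filter fun i => x i = true).card)⟩
      rfl (fun l x => x ⟨{l}, singleton_nonempty l⟩) fun l => Term.proj _
  · have e1 : ∀ l : Fin (h + 1), ((i ∈ ({l} : Finset (Fin (h + 1)))) ↔ l = i) := by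
      intro l
      rw [mem_singleton, eq_comm]
    simp only [e1]
    cases x <;> cases y
    · simp
    · have : (univ.filter fun l : Fin (h + 1) => (if l = i then true else false) = true) = {i} := by
        ext l
        by_cases hl : l = i <;> simp [hl]
      rw [this]
      simp
    · have : (univ.filter fun l : Fin (h + 1) => (if l = i then false else true) = true) =
          univ.erase i := by
        ext l
        by_cases hl : l = i <;> simp [hl]
      rw [this, card_erase_of_mem (mem_univ _), card_univ, Fintype.card_fin]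
      simpa using hh
    · simp
      omega

theorem cube_minority : Cube minority 2 := by
  have h01 : ({0, 1} : Finset (Fin 2)).Nonempty := ⟨0, by simp⟩
  let a : Fin 3 → {S : Finset (Fin 2) // S.Nonempty} :=
    ![⟨{0}, singleton_nonempty _⟩, ⟨{0, 1}, h01⟩, ⟨{1}, singleton_nonempty _⟩]
  refine ⟨fun x => xor (x (a 0)) (xor (x (a 1)) (x (a 2))), ?_, fun i x y => ?_⟩
  · exact Term.app (F := minority) ⟨3, fun x => xor (x 0) (xor (x 1) (x 2))⟩ rfl
      (fun l x => x (a l)) fun l => Term.proj _
  · fin_cases i <;> cases x <;> cases y <;> simp [a]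

theorem not_cube_conj (k : ℕ) : ¬ Cube conj k := by
  refine not_cube_of_closed (R := {w | ∃ i, w i () = false}) ?_ true false ?_ ?_
  · intro f hf v hv
    rw [conj, Set.mem_singleton_iff] at hf
    subst hf
    obtain ⟨i, hi⟩ := hv 0
    refine ⟨i, ?_⟩
    simp [hi]
  · rintro S ⟨i, hi⟩
    exact ⟨i, by simp [hi]⟩
  · rintro ⟨i, hi⟩
    simp at hi

theorem heights {h : ℕ} (hh : 1 ≤ h) : ∃ F : Ops Bool, Idem F ∧ ∀ k, Cube F k ↔ h < k := by
  rcases Nat.lt_or_ge h 2 with h2 | h2
  · have h1 : h = 1 := by omega
    subst h1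
    refine ⟨minority, idem_minority, fun k => ⟨fun hk => ?_, fun hk => cube_minority.mono
      idem_minority hk⟩⟩
    by_contra hlt
    exact not_cube_one idem_minority (hk.mono idem_minority (by omega))
  · refine ⟨thr h, idem_thr h2, fun k => ⟨fun hk => ?_, fun hk => (cube_thr h2).mono
      (idem_thr h2) hk⟩⟩
    by_contra hlt
    exact not_cube_thr h (hk.mono (idem_thr h2) (by omega))

end Pool.Agent.T3H86.CT
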