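import Pool.Agent.T3H86.CT.Upper
import Pool.Agent.TH360.SR.Final

/-!
# Full height needs many relations
-/

set_option autoImplicit false

namespace Pool.Agent.T3H86.CT

open Finset Pool.Agent.N584.TI
open Pool.Agent.TH360.SR (twr tow RB)

variable {D : Type} {F : Ops D}

theorem arrow_of_twr {r t L M N : ℕ} (hM : 1 ≤ M)
    (hN : twr t ((2 * t).factorial *
      (2 * Fintype.card (Fin L → {J : Finset (Fin r) // J.card = t + 1} → Bool) *
        Fintype.card (Fin L → {J : Finset (Fin r) // J.card = t + 1} → Bool)) * M) ≤ N) :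
    Arrow (κ := Fin L → {J : Finset (Fin r) // J.card = t + 1} → Bool) AllCol (t + 1) M N := by
  apply arrow_of_arr
  intro c
  refine Pool.Agent.TH360.SR.ramsey M t (range N) ?_ c
  rw [card_range]
  exact (RB_le' _ M t Fintype.card_pos hM).trans hN

theorem few (hF : Idem F) {t : ℕ} (hC : Cube F (t + 2)) {ε : ℝ} (hε : 0 < ε) :
    ∃ δ : ℝ, 0 < δ ∧ ∃ n₀ : ℕ, ∀ n : ℕ, n₀ ≤ n → ∀ L : ℕ, (L : ℝ) * Real.log n ≤ δ * n →
      ∀ N : ℕ, tow (t + 1) (ε * n) ≤ N → ∀ κ : Type, Arrow (κ := κ) (Det F L) (t + 2) n N := by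
  classical
  set r := t + 2 with hr
  set K := Fintype.card {J : Finset (Fin r) // J.card = t + 1} with hK
  set A : ℝ := 2 * K + r + r ^ 2 with hA
  have hA0 : 0 < A := by
    have : (0 : ℝ) < r := by
      rw [hr]
      positivity
    positivity
  set c₀ : ℝ := Real.log ((2 * t).factorial * 2 : ℕ) with hc₀
  have hl2 : 0 < Real.log 2 := Real.log_pos (by norm_num)
  have hl2' : Real.log 2 ≤ 1 := by
    have := Real.log_two_lt_d9
    linarith
  set δ : ℝ := min (ε * Real.log 2 / (2 * A)) (1 / (2 * r)) with hδ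
  have hr0 : (0 : ℝ) < r := by rw [hr]; positivity
  have hδ0 : 0 < δ := by
    rw [hδ]
    apply lt_min <;> positivity
  -- large n
  have hlim : ∀ᶠ n : ℕ in Filter.atTop, c₀ + Real.log n ≤ ε * Real.log 2 / 2 * n := by
    have h1 : Filter.Tendsto (fun n : ℕ => (c₀ + Real.log n) / n) Filter.atTop (nhds 0) := by
      have h2 : Filter.Tendsto (fun n : ℕ => c₀ / (n : ℝ)) Filter.atTop (nhds 0) :=
        tendsto_const_div_atTop_nhds_zero_nat c₀
      have h3 : Filter.Tendsto (fun n : ℕ => Real.log n / (n : ℝ)) Filter.atTop (nhds 0) := by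
        have := Real.isLittleO_log_id_atTop.tendsto_div_nhds_zero
        exact this.comp tendsto_natCast_atTop_atTop
      have := h2.add h3
      simpa [add_div] using this
    have h2 := h1.eventually (gt_mem_nhds (show (0 : ℝ) < ε * Real.log 2 / 2 by positivity))
    filter_upwards [h2, Filter.eventually_gt_atTop 0] with n hn hn0
    have hn0' : (0 : ℝ) < n := by exact_mod_cast hn0
    rw [div_lt_iff₀ hn0'] at hn
    exact hn.le
  obtain ⟨n₁, hn₁⟩ := Filter.eventually_atTop.1 hlim
  refine ⟨δ, hδ0, max n₁ 3, fun n hn L hL N hN κ => ?_⟩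
  have hn1 : n₁ ≤ n := (le_max_left _ _).trans hn
  have hn3 : 3 ≤ n := (le_max_right _ _).trans hn
  have hnR : (3 : ℝ) ≤ n := by exact_mod_cast hn3
  have hlog1 : 1 ≤ Real.log n := by
    rw [Real.le_log_iff_exp_le (by linarith)]
    exact Real.exp_one_lt_three.le.trans hnR
  have hLn : (L : ℝ) ≤ δ * n := by
    refine le_trans ?_ hL
    exact le_mul_of_one_le_right (Nat.cast_nonneg _) hlog1
  set M := n * (L * r * n ^ r + 1) ^ (L * r) with hM
  have hM1 : 1 ≤ M := by
    have : 0 < n * (L * r * n ^ r + 1) ^ (L * r) := by positivity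
    omega
  refine upper_arrow hF (s := t + 1) (by omega) (by omega) hC (arrow_of_twr hM1 ?_)
  set ℓ := Fintype.card (Fin L → {J : Finset (Fin r) // J.card = t + 1} → Bool) with hℓ
  have hℓe : ℓ = 2 ^ (K * L) := by
    rw [hℓ, Fintype.card_fun, Fintype.card_fun, Fintype.card_bool, Fintype.card_fin, pow_mul]
  set X := (2 * t).factorial * (2 * ℓ * ℓ) * M with hX
  have hX1 : (X : ℝ) ≤ 2 ^ (ε * n) := by
    have hX0 : (0 : ℝ) < X := by
      have h1 : 0 < (2 * t).factorial := Nat.factorial_pos _
      have h2 : 0 < ℓ := Fintype.card_pos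
      rw [hX]
      positivity
    have hlogM : Real.log M ≤ L * r * Real.log n + (L * r ^ 2 + 1) * Real.log n := by
      have h1 : M ≤ n ^ (L * r) * n ^ (L * r ^ 2 + 1) := by
        have h2 : L * r + 1 ≤ n := by
          have h3 : (L : ℝ) * r ≤ n / 2 := by
            have h4 : δ * n ≤ 1 / (2 * r) * n :=
              mul_le_mul_of_nonneg_right (min_le_right _ _) (by linarith)
            calc (L : ℝ) * r ≤ (1 / (2 * r) * n) * r :=
                  mul_le_mul_of_nonneg_right (hLn.trans h4) hr0.le
              _ = n / 2 := by field_simp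
          have h5 : (L : ℝ) * r + 1 ≤ n := by linarith
          exact_mod_cast h5
        have h6 : L * r * n ^ r + 1 ≤ (L * r + 1) * n ^ r := by
          have : 1 ≤ n ^ r := Nat.one_le_pow _ _ (by omega)
          nlinarith
        calc M ≤ n * ((L * r + 1) * n ^ r) ^ (L * r) := by
              rw [hM]
              exact Nat.mul_le_mul_left _ (Nat.pow_le_pow_left h6 _)
          _ ≤ n * (n * n ^ r) ^ (L * r) :=
              Nat.mul_le_mul_left _ (Nat.pow_le_pow_left (Nat.mul_le_mul_right _ h2) _)
          _ = n ^ (L * r) * n ^ (L * r ^ 2 + 1) := by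
              rw [mul_pow, ← pow_mul, show r * (L * r) = L * r ^ 2 by ring, pow_succ]
              ring
      have h2 : (M : ℝ) ≤ (n : ℝ) ^ (L * r) * (n : ℝ) ^ (L * r ^ 2 + 1) := by exact_mod_cast h1
      have hM0 : (0 : ℝ) < M := by exact_mod_cast hM1
      calc Real.log M ≤ Real.log ((n : ℝ) ^ (L * r) * (n : ℝ) ^ (L * r ^ 2 + 1)) :=
            Real.log_le_log hM0 h2
        _ = L * r * Real.log n + (L * r ^ 2 + 1) * Real.log n := by
            rw [Real.log_mul (by positivity) (by positivity), Real.log_pow, Real.log_pow]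
            push_cast
            ring
    have hlogX : Real.log X = c₀ + 2 * K * L * Real.log 2 + Real.log M := by
      have h1 : (X : ℝ) = (((2 * t).factorial * 2 : ℕ) : ℝ) * (2 : ℝ) ^ (2 * K * L) * M := by
        rw [hX, hℓe, show 2 * K * L = K * L + K * L by ring, pow_add]
        push_cast
        ring
      have hM0 : (M : ℝ) ≠ 0 := by
        have : (0 : ℝ) < M := by exact_mod_cast hM1
        exact this.ne'
      have hf0 : (((2 * t).factorial * 2 : ℕ) : ℝ) ≠ 0 := by
        have := Nat.factorial_pos (2 * t)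
        positivity
      rw [h1, Real.log_mul (by positivity) hM0, Real.log_mul hf0 (by positivity), Real.log_pow,
        ← hc₀]
      push_cast
      ring
    have hlog : Real.log X ≤ ε * n * Real.log 2 := by
      have h1 : (L : ℝ) * Real.log n * A ≤ ε * Real.log 2 / 2 * n := by
        have h2 : δ * n ≤ ε * Real.log 2 / (2 * A) * n :=
          mul_le_mul_of_nonneg_right (min_le_left _ _) (by linarith)
        calc (L : ℝ) * Real.log n * A ≤ (ε * Real.log 2 / (2 * A) * n) * A :=
              mul_le_mul_of_nonneg_right (hL.trans h2) hA0.le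
          _ = ε * Real.log 2 / 2 * n := by field_simp
      have h3 := hn₁ n hn1
      have h4 : 2 * (K : ℝ) * L * Real.log 2 ≤ 2 * K * (L * Real.log n) := by
        have : (L : ℝ) * Real.log 2 ≤ L * Real.log n :=
          mul_le_mul_of_nonneg_left (hl2'.trans hlog1) (Nat.cast_nonneg _)
        nlinarith [Nat.cast_nonneg (α := ℝ) K]
      rw [hlogX]
      have h5 : (L : ℝ) * Real.log n * A = 2 * K * (L * Real.log n) + L * r * Real.log n +
          L * r ^ 2 * Real.log n := by
        rw [hA]
        ring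
      nlinarith
    calc (X : ℝ) = Real.exp (Real.log X) := (Real.exp_log hX0).symm
      _ ≤ Real.exp (ε * n * Real.log 2) := Real.exp_le_exp.2 hlog
      _ = 2 ^ (ε * n) := by
          rw [Real.rpow_def_of_pos (by norm_num)]
          congr 1
          ring
  have h1 : ((twr t X : ℕ) : ℝ) ≤ N := by
    rw [Pool.Agent.TH360.SR.twr_cast]
    refine le_trans ?_ hN
    rw [← Pool.Agent.TH360.SR.tow_two]
    exact Pool.Agent.TH360.SR.tow_mono' t hX1
  exact_mod_cast h1

end Pool.Agent.T3H86.CT
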