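import Pool.Agent.T3H86.CT.Examples
import Pool.Agent.T3H86.CT.Few
import Pool.Agent.N584.TI.Final

/-!
# The question of Erdős for the classes
-/

set_option autoImplicit false

namespace Pool.Agent.T3H86.CT

open Finset Pool.Agent.N584.TI
open Pool.Agent.TH360.SR (twr)

variable {D : Type} {F : Ops D}

theorem inh_pol : Inh (κ := Bool) (Pol F) := by
  intro r N
  refine ⟨fun _ => true, 0, fun _ => Fin.elim0, Set.univ, fun _ _ _ _ => trivial, fun x _ _ => ?_⟩
  simp

theorem q1_iff [Finite D] (hF : Idem F) {s : ℕ} (hs : 3 ≤ s) (hC : ¬ Cube F s) :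
    Q1 ↔ Growth (Ram (κ := Bool) (Pol F) s) (s - 1) := by
  have e : Ram (κ := Bool) (Pol F) s = Ram (κ := Bool) AllCol s :=
    funext fun n => ram_eq hF (by omega) hC n
  rw [e, growth_class inh_all (by omega), all_iff hs, Q1_iff_three]

theorem not_growth (hF : Idem F) {s : ℕ} (hs : 3 ≤ s) (hC : Cube F s) :
    ¬ Growth (Ram (κ := Bool) (Pol F) s) (s - 1) := by
  intro h
  rw [growth_iff (fun n => le_Ram (by omega) inh_pol)] at h
  obtain ⟨⟨c, hc, N, hN⟩, -⟩ := h
  obtain ⟨t, rfl⟩ : ∃ t, s = t + 3 := ⟨s - 3, by omega⟩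
  obtain ⟨C, hCn⟩ := ram_upper (r := t + 3) (s := t + 2) hF (by omega) (by omega) hC
  rw [show t + 2 - 1 = t + 1 by omega] at hCn
  rw [show t + 3 - 1 = t + 2 by omega] at hN
  set k := (t + 3) ^ 2 + 1 with hk
  have h1 : ∀ n : ℕ, max N 1 ≤ n → Real.exp (c * n) ≤ C * (n : ℝ) ^ k := by
    intro n hn
    have h2 := hN n ((le_max_left _ _).trans hn)
    have h3 := hCn n ((le_max_right _ _).trans hn)
    have h4 := twr_le_E (t + 1) (C * n ^ k)
    have h5 : Real.exp^[t + 2] (c * (n : ℝ) ^ 1) ≤ Real.exp^[t + 1] ((C * n ^ k : ℕ) : ℝ) :=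
      h2.trans (le_trans (by exact_mod_cast h3) h4)
    rw [show t + 2 = (t + 1) + 1 by ring, Function.iterate_succ_apply] at h5
    have h6 := (E_mono (t + 1)).le_iff_le.1 h5
    rw [pow_one] at h6
    push_cast at h6
    exact h6
  -- exponential beats polynomial
  have h2 : Filter.Tendsto (fun n : ℕ => (n : ℝ) ^ k * Real.exp (-c * n)) Filter.atTop (nhds 0) := by
    have := (Real.tendsto_pow_mul_exp_neg_atTop_nhds_zero k)
    have h3 : Filter.Tendsto (fun n : ℕ => c * (n : ℝ)) Filter.atTop Filter.atTop :=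
      Filter.Tendsto.const_mul_atTop hc tendsto_natCast_atTop_atTop
    have h4 := (this.comp h3).const_mul (1 / c ^ k)
    rw [mul_zero] at h4
    refine h4.congr fun n => ?_
    simp only [Function.comp]
    rw [mul_pow]
    have : c ^ k ≠ 0 := by positivity
    field_simp
  have h3 := h2.const_mul (C : ℝ)
  rw [mul_zero] at h3
  have h4 := h3.eventually (gt_mem_nhds (show (0 : ℝ) < 1 by norm_num))
  obtain ⟨n, hn1, hn2⟩ := (h4.and (Filter.eventually_ge_atTop (max N 1))).exists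
  have h5 := h1 n hn2
  have h6 : Real.exp (c * n) * Real.exp (-c * n) = 1 := by
    rw [← Real.exp_add]
    simp
  have h7 := mul_le_mul_of_nonneg_right h5 (Real.exp_pos (-c * n)).le
  rw [h6] at h7
  nlinarith

theorem windows_upper (hF : Idem F) {r s L n N : ℕ} (hs : 1 ≤ s) (hsr : s ≤ r)
    (hC : Cube F (s + 1))
    (hN : Ram (κ := Fin L → {J : Finset (Fin r) // J.card = s} → Bool) AllCol s
      (n * (L * r * n ^ r + 1) ^ (L * r)) ≤ N) {κ : Type} : Arrow (κ := κ) (Det F L) r n N :=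
  upper_arrow hF hs hsr hC ((Ram_spec hs).mono_N hered_all hN)

theorem lower_growth [Finite D] (hF : Idem F) {s r k e : ℕ} (he : 1 ≤ e) (hs : 1 ≤ s)
    (hsr : s ≤ r) (hC : ¬ Cube F s) (h : Lo e k (Ram (κ := Bool) AllCol s)) :
    LowerGrowth (Ram (κ := Bool) (Pol F) r) k e := by
  apply Lo.lower (fun n => le_Ram (by omega) inh_pol)
  obtain ⟨c, hc, N, hN⟩ := h
  set d := r - s with hd
  refine ⟨c / 2 ^ e, by positivity, N + 2 * d, fun n hn => ?_⟩
  have h1 := ram_lower hF hs hsr hC (n - d)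
  rw [← hd, Nat.sub_add_cancel (by omega)] at h1
  have h2 := hN (n - d) (by omega)
  have h3 : (n : ℝ) / 2 ≤ ((n - d : ℕ) : ℝ) := by
    rw [Nat.cast_sub (by omega)]
    have : (2 : ℝ) * d ≤ n := by
      have : 2 * d ≤ n := by omega
      exact_mod_cast this
    linarith
  have h4 : c / 2 ^ e * (n : ℝ) ^ e ≤ c * ((n - d : ℕ) : ℝ) ^ e := by
    have h5 : ((n : ℝ) / 2) ^ e ≤ ((n - d : ℕ) : ℝ) ^ e :=
      pow_le_pow_left₀ (by positivity) h3 e
    calc c / 2 ^ e * (n : ℝ) ^ e = c * ((n : ℝ) / 2) ^ e := by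
          rw [div_pow]
          ring
      _ ≤ _ := mul_le_mul_of_nonneg_left h5 hc.le
  calc Real.exp^[k] (c / 2 ^ e * (n : ℝ) ^ e) ≤ Real.exp^[k] (c * ((n - d : ℕ) : ℝ) ^ e) :=
        (E_mono k).monotone h4
    _ ≤ _ := h2
    _ ≤ _ := by exact_mod_cast h1

end Pool.Agent.T3H86.CT
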