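import Mathlib

/-!
# Polynomial Ramsey theorem for rectangular hypergraphs
-/

set_option autoImplicit false

namespace Pool.Agent.T3H86.CT

open Finset

variable {r L : ℕ} {Q : Fin L → (Fin r → ℕ) → Prop}

/-- Rectangularity on `V`. -/
def RectOn (Q : Fin L → (Fin r → ℕ) → Prop) (V : Finset ℕ) : Prop :=
  ∀ (l : Fin L) (i : Fin r) (x x' : Fin r → ℕ) (y : ℕ), StrictMono x → StrictMono x' →
    (∀ a, x a ∈ V) → (∀ a, x' a ∈ V) → y ∈ V → StrictMono (Function.update x i y) →
      StrictMono (Function.update x' i y) → x i = x' i → Q l x → Q l (Function.update x i y) →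
        Q l x' → Q l (Function.update x' i y)

/-- The place `i` is irrelevant for `Q l` on `V`. -/
def Irr (Q : Fin L → (Fin r → ℕ) → Prop) (V : Finset ℕ) (l : Fin L) (i : Fin r) : Prop :=
  ∀ (x : Fin r → ℕ) (y : ℕ), StrictMono x → (∀ a, x a ∈ V) → y ∈ V →
    StrictMono (Function.update x i y) → (Q l x ↔ Q l (Function.update x i y))

theorem RectOn.mono {V W : Finset ℕ} (h : RectOn Q V) (hW : W ⊆ V) : RectOn Q W :=
  fun l i x x' y hx hx' hxV hxV' hy => h l i x x' y hx hx' (fun a => hW (hxV a))
    (fun a => hW (hxV' a)) (hW hy)

theorem Irr.mono {V W : Finset ℕ} {l : Fin L} {i : Fin r} (h : Irr Q V l i) (hW : W ⊆ V) :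
    Irr Q W l i :=
  fun x y hx hxV hy => h x y hx (fun a => hW (hxV a)) (hW hy)

theorem move_le {V : Finset ℕ} {l : Fin L} {S : Finset (Fin r)} (hS : ∀ i ∈ S, Irr Q V l i)
    {x z : Fin r → ℕ} (hx : StrictMono x) (hz : StrictMono z) (hxV : ∀ a, x a ∈ V)
    (hzV : ∀ a, z a ∈ V) (hzx : ∀ a, z a ≤ x a) (h : ∀ a ∉ S, z a = x a) : Q l x ↔ Q l z := by
  classical
  -- replace the first `t` coordinates
  set w : ℕ → Fin r → ℕ := fun t a => if (a : ℕ) < t then z a else x a with hw
  have hwm : ∀ t, StrictMono (w t) := by
    intro t a b hab
    have hab' : (a : ℕ) < b := hab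
    simp only [hw]
    split_ifs with h1 h2
    · exact hz hab
    · exact (hzx a).trans_lt (hx hab)
    · omega
    · exact hx hab
  have hwV : ∀ t a, w t a ∈ V := by
    intro t a
    simp only [hw]
    split_ifs
    · exact hzV a
    · exact hxV a
  have key : ∀ t, t ≤ r → (Q l x ↔ Q l (w t)) := by
    intro t
    induction t with
    | zero =>
      intro _
      have : w 0 = x := by
        funext a
        simp [hw]
      rw [this]
    | succ t ih =>
      intro ht
      rw [ih (by omega)]
      set a : Fin r := ⟨t, ht⟩ with ha
      have e1 : w (t + 1) = Function.update (w t) a (z a) := by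
        funext b
        by_cases hb : b = a
        · rw [hb, Function.update_self]
          simp [hw, ha]
        · rw [Function.update_of_ne hb]
          have : (b : ℕ) ≠ t := fun h => hb (Fin.ext h)
          simp only [hw]
          by_cases h1 : (b : ℕ) < t
          · rw [if_pos h1, if_pos (by omega)]
          · rw [if_neg h1, if_neg (by omega)]
      by_cases haS : a ∈ S
      · rw [e1]
        apply hS a haS _ _ (hwm t) (hwV t) (hzV a)
        rw [← e1]
        exact hwm _
      · have e2 : w (t + 1) = w t := by
          rw [e1, h a haS]
          apply Function.update_eq_self_iff.2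
          simp [hw, ha]
        rw [e2]
  have e : w r = z := by
    funext a
    simp [hw]
  rw [key r le_rfl, e]

theorem move {V : Finset ℕ} {l : Fin L} {S : Finset (Fin r)} (hS : ∀ i ∈ S, Irr Q V l i)
    {x z : Fin r → ℕ} (hx : StrictMono x) (hz : StrictMono z) (hxV : ∀ a, x a ∈ V)
    (hzV : ∀ a, z a ∈ V) (h : ∀ a ∉ S, z a = x a) : Q l x ↔ Q l z := by
  set y : Fin r → ℕ := fun a => min (x a) (z a) with hy
  have hym : StrictMono y := fun a b hab => by
    have h1 := hx hab
    have h2 := hz hab
    simp only [hy]
    omega
  have hyV : ∀ a, y a ∈ V := by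
    intro a
    simp only [hy]
    rcases min_choice (x a) (z a) with h | h
    · rw [h]; exact hxV a
    · rw [h]; exact hzV a
  rw [move_le hS hx hym hxV hyV (fun a => min_le_left _ _) (fun a ha => by simp [hy, h a ha]),
    move_le hS hz hym hzV hyV (fun a => min_le_right _ _) (fun a ha => by simp [hy, h a ha])]

/-- Homogeneous for all the `Q l`. -/
def Hom (Q : Fin L → (Fin r → ℕ) → Prop) (H : Finset ℕ) : Prop :=
  ∀ l, (∀ x, StrictMono x → (∀ a, x a ∈ H) → Q l x) ∨ ∀ x, StrictMono x → (∀ a, x a ∈ H) → ¬ Q l x

theorem arith (n q k v i : ℕ) (hv : n * (q + 1) ^ (k + 1) ≤ v) (hi : i < n) :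
    q * (n * (q + 1) ^ k) ≤ v - i := by
  have h1 : 1 ≤ (q + 1) ^ k := Nat.one_le_pow _ _ (Nat.succ_pos q)
  have h2 : n * (q + 1) ^ (k + 1) = q * (n * (q + 1) ^ k) + n * (q + 1) ^ k := by ring
  have h3 : n ≤ n * (q + 1) ^ k := Nat.le_mul_of_pos_right _ h1
  omega

theorem polyRam_aux (n : ℕ) (k : ℕ) : ∀ (V : Finset ℕ) (S : Fin L → Finset (Fin r)),
    (∀ l, ∀ i ∈ S l, Irr Q V l i) → RectOn Q V → ∑ l, (univ \ S l).card = k →
      n * (L * r * n ^ r + 1) ^ k ≤ V.card → ∃ H ⊆ V, H.card = n ∧ Hom Q H := by
  classical
  induction k with
  | zero =>
    intro V S hS _ hk hV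
    have hSu : ∀ l, ∀ i, i ∈ S l := by
      intro l i
      have h1 : (univ \ S l).card = 0 := by
        apply (sum_eq_zero_iff_of_nonneg (fun _ _ => Nat.zero_le _)).1 hk l (mem_univ l)
      rw [card_eq_zero, sdiff_eq_empty_iff_subset] at h1
      exact h1 (mem_univ i)
    rw [pow_zero, mul_one] at hV
    obtain ⟨H, hH, hHn⟩ := exists_subset_card_eq hV
    refine ⟨H, hH, hHn, fun l => ?_⟩
    by_cases h : ∃ x, StrictMono x ∧ (∀ a, x a ∈ H) ∧ Q l x
    · obtain ⟨x, hx, hxH, hxQ⟩ := h
      left
      intro z hz hzH
      exact (move (hS l) hx hz (fun a => hH (hxH a)) (fun a => hH (hzH a))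
        (fun a ha => absurd (hSu l a) ha)).1 hxQ
    · right
      intro x hx hxH hxQ
      exact h ⟨x, hx, hxH, hxQ⟩
  | succ k ih =>
    intro V S hS hR hk hV
    -- good sets
    let good : Finset ℕ → Prop := fun I => ∀ l, (∃ i, i ∉ S l) → ∀ x : Fin r → ℕ, StrictMono x →
      (∀ a, x a ∈ V) → (∀ a ∉ S l, x a ∈ I) → ¬ Q l x
    have hne : (V.powerset.filter good).Nonempty := by
      refine ⟨∅, mem_filter.2 ⟨empty_mem_powerset _, ?_⟩⟩
      rintro l ⟨i, hi⟩ x _ _ h
      exact absurd (h i hi) (notMem_empty _)
    obtain ⟨I, hI, hmax⟩ := exists_max_image (V.powerset.filter good) Finset.card hne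
    rw [mem_filter, mem_powerset] at hI
    obtain ⟨hIV, hIg⟩ := hI
    rcases le_or_gt n I.card with hn | hn
    · obtain ⟨H, hH, hHn⟩ := exists_subset_card_eq hn
      refine ⟨H, hH.trans hIV, hHn, fun l => ?_⟩
      by_cases hl : ∃ i, i ∉ S l
      · right
        intro x hx hxH
        exact hIg l hl x hx (fun a => hIV (hH (hxH a))) (fun a _ => hH (hxH a))
      · push Not at hl
        by_cases h : ∃ x, StrictMono x ∧ (∀ a, x a ∈ H) ∧ Q l x
        · obtain ⟨x, hx, hxH, hxQ⟩ := h
          left
          intro z hz hzH
          exact (move (hS l) hx hz (fun a => hIV (hH (hxH a))) (fun a => hIV (hH (hzH a)))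
            (fun a ha => absurd (hl a) ha)).1 hxQ
        · right
          intro x hx hxH hxQ
          exact h ⟨x, hx, hxH, hxQ⟩
    · -- every vertex outside `I` completes a tuple
      have hex : ∀ v ∈ V \ I, ∃ (l : Fin L) (i : Fin r) (x : Fin r → ℕ), i ∉ S l ∧ StrictMono x ∧
          (∀ a, x a ∈ V) ∧ x i = v ∧ (∀ a ∉ S l, a ≠ i → x a ∈ I) ∧ Q l x := by
        intro v hv
        rw [mem_sdiff] at hv
        have hng : ¬ good (insert v I) := by
          intro hg
          have := hmax (insert v I) (mem_filter.2 ⟨mem_powerset.2 (insert_subset hv.1 hIV), hg⟩)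
          rw [card_insert_of_notMem hv.2] at this
          omega
        simp only [good] at hng
        push Not at hng
        obtain ⟨l, hl, x, hx, hxV, hxI, hxQ⟩ := hng
        have h1 : ∃ i, i ∉ S l ∧ x i = v := by
          by_contra hcon
          push Not at hcon
          refine hIg l hl x hx hxV (fun a ha => ?_) hxQ
          exact (mem_insert.1 (hxI a ha)).resolve_left (hcon a ha)
        obtain ⟨i, hi, hiv⟩ := h1
        refine ⟨l, i, x, hi, hx, hxV, hiv, fun a ha hai => ?_, hxQ⟩
        refine (mem_insert.1 (hxI a ha)).resolve_left (fun h => hai ?_)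
        exact hx.injective (by rw [h, hiv])
      have h0n : 0 < n := by omega
      obtain ⟨v₀, hv₀⟩ : (V \ I).Nonempty := by
        rw [← card_pos, card_sdiff_of_subset hIV]
        have h3 : n ≤ V.card := by
          refine le_trans ?_ hV
          exact Nat.le_mul_of_pos_right _ (by positivity)
        omega
      have : Nonempty (Fin L) := ⟨(hex v₀ hv₀).choose⟩
      have : Nonempty (Fin r) := ⟨(hex v₀ hv₀).choose_spec.choose⟩
      choose! lf jf xf hf1 hf2 hf3 hf4 hf5 hf6 using hex
      -- the classes
      let T : Finset (Fin L × Fin r × (Fin r → ℕ)) :=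
        univ ×ˢ (univ ×ˢ Fintype.piFinset fun _ : Fin r => insert 0 I)
      let cl : ℕ → Fin L × Fin r × (Fin r → ℕ) := fun v =>
        (lf v, jf v, fun a => if a ∈ S (lf v) ∨ a = jf v then 0 else xf v a)
      have hcl : ∀ v ∈ V \ I, cl v ∈ T := by
        intro v hv
        simp only [T, cl, mem_product, mem_univ, true_and, Fintype.mem_piFinset]
        intro a
        split_ifs with h
        · exact mem_insert_self _ _
        · push Not at h
          exact mem_insert_of_mem (hf5 v hv a h.1 h.2)
      have hTc : T.card ≤ L * r * n ^ r := by
        simp only [T, card_product, card_univ, Fintype.card_fin, Fintype.card_piFinset, prod_const]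
        rw [mul_assoc]
        apply Nat.mul_le_mul_left
        apply Nat.mul_le_mul_left
        apply Nat.pow_le_pow_left
        exact (card_insert_le _ _).trans hn
      have hVI : T.card * (n * (L * r * n ^ r + 1) ^ k) ≤ (V \ I).card := by
        rw [card_sdiff_of_subset hIV]
        refine (Nat.mul_le_mul_right _ hTc).trans ?_
        exact arith n (L * r * n ^ r) k _ _ hV hn
      have hTne : T.Nonempty := ⟨cl v₀, hcl v₀ hv₀⟩
      obtain ⟨t, -, ht⟩ := exists_le_card_fiber_of_mul_le_card_of_maps_to hcl hTne hVI
      obtain ⟨l, i, c⟩ := t
      set V₁ := (V \ I).filter (fun v => cl v = (l, i, c)) with hV₁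
      have hV₁V : V₁ ⊆ V := (filter_subset _ _).trans sdiff_subset
      -- the class has a common context
      have hcommon : ∀ v ∈ V₁, ∀ v' ∈ V₁, v < v' → ∃ c : Fin r → ℕ, StrictMono c ∧
          (∀ a, c a ∈ V) ∧ c i = v ∧ StrictMono (Function.update c i v') ∧ Q l c ∧
            Q l (Function.update c i v') := by
        intro v hv v' hv' hvv
        rw [hV₁, mem_filter] at hv hv'
        obtain ⟨hvV, hvc⟩ := hv
        obtain ⟨hvV', hvc'⟩ := hv'
        simp only [cl, Prod.mk.injEq] at hvc hvc'
        obtain ⟨hl, hi, hc⟩ := hvc
        obtain ⟨hl', hi', hc'⟩ := hvc'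
        have hx := hf2 v hvV
        have hx' := hf2 v' hvV'
        have hxi : xf v i = v := by
          have := hf4 v hvV
          rwa [hi] at this
        have hxi' : xf v' i = v' := by
          have := hf4 v' hvV'
          rwa [hi'] at this
        have hag : ∀ a ∉ S l, a ≠ i → xf v a = xf v' a := by
          intro a ha hai
          have h1 := congrFun hc a
          have h2 := congrFun hc' a
          rw [hl, hi, if_neg (by tauto)] at h1
          rw [hl', hi', if_neg (by tauto)] at h2
          rw [h1, h2]
        have hQ : Q l (xf v) := by
          have := hf6 v hvV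
          rwa [hl] at this
        have hQ' : Q l (xf v') := by
          have := hf6 v' hvV'
          rwa [hl'] at this
        have hxV := hf3 v hvV
        have hxV' := hf3 v' hvV'
        set d : Fin r → ℕ := fun a => if a < i then xf v a else if a = i then v else xf v' a with hd
        have hdi : d i = v := by simp [hd]
        have hdlt : ∀ a, a < i → d a = xf v a := fun a ha => by simp only [hd, if_pos ha]
        have hdgt : ∀ a, i < a → d a = xf v' a := fun a ha => by
          simp only [hd]
          rw [if_neg (by omega), if_neg (by omega)]
        have hdm : StrictMono d := by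
          intro a b hab
          rcases lt_trichotomy a i with h1 | h1 | h1
          · rw [hdlt a h1]
            have h2 : xf v a < v := by
              calc xf v a < xf v i := hx h1
                _ = v := hxi
            rcases lt_trichotomy b i with h3 | h3 | h3
            · rw [hdlt b h3]
              exact hx hab
            · rw [h3, hdi]
              exact h2
            · rw [hdgt b h3]
              calc xf v a < v := h2
                _ < v' := hvv
                _ = xf v' i := hxi'.symm
                _ < xf v' b := hx' h3
          · rw [h1, hdi, hdgt b (by omega)]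
            calc v < v' := hvv
              _ = xf v' i := hxi'.symm
              _ < xf v' b := hx' (by omega)
          · rw [hdgt a h1, hdgt b (by omega)]
            exact hx' hab
        have hdV : ∀ a, d a ∈ V := by
          intro a
          simp only [hd]
          split_ifs
          · exact hxV a
          · exact (mem_sdiff.1 hvV).1
          · exact hxV' a
        have hdm' : StrictMono (Function.update d i v') := by
          intro a b hab
          by_cases ha : a = i
          · have hb : b ≠ i := fun h => by rw [ha, h] at hab; exact lt_irrefl _ hab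
            rw [ha, Function.update_self, Function.update_of_ne hb]
            rw [hdgt b (by omega)]
            calc v' = xf v' i := hxi'.symm
              _ < xf v' b := hx' (by omega)
          · rw [Function.update_of_ne ha]
            by_cases hb : b = i
            · rw [hb, Function.update_self]
              have h1 : d a < d i := hdm (hb ▸ hab)
              rw [hdi] at h1
              exact h1.trans hvv
            · rw [Function.update_of_ne hb]
              exact hdm hab
        refine ⟨d, hdm, hdV, hdi, hdm', ?_, ?_⟩
        · refine (move (hS l) hx hdm hxV hdV fun a ha => ?_).1 hQ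
          simp only [hd]
          split_ifs with h1 h2
          · rfl
          · rw [h2, hxi]
          · exact (hag a ha h2).symm
        · refine (move (hS l) hx' hdm' hxV' (fun a => ?_) fun a ha => ?_).1 hQ'
          · by_cases h : a = i
            · rw [h, Function.update_self]
              exact (mem_sdiff.1 hvV').1
            · rw [Function.update_of_ne h]
              exact hdV a
          · by_cases h : a = i
            · rw [h, Function.update_self, hxi']
            · rw [Function.update_of_ne h]
              simp only [hd]
              split_ifs with h1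
              · exact hag a ha h
              · rfl
      have hirr : Irr Q V₁ l i := by
        intro x y hx hxV₁ hy hxy
        have hxV : ∀ a, x a ∈ V := fun a => hV₁V (hxV₁ a)
        have hyV : y ∈ V := hV₁V hy
        have hupd : ∀ a, Function.update x i y a ∈ V := by
          intro a
          by_cases h : a = i
          · rw [h, Function.update_self]; exact hyV
          · rw [Function.update_of_ne h]; exact hxV a
        have hback : Function.update (Function.update x i y) i (x i) = x := by simp
        rcases lt_trichotomy (x i) y with h | h | h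
        · obtain ⟨d, hdm, hdV, hdi, hdm', hQ, hQ'⟩ := hcommon (x i) (hxV₁ i) y hy h
          constructor
          · intro hq
            exact hR l i d x y hdm hx hdV hxV hyV hdm' hxy hdi hQ hQ' hq
          · intro hq
            have hb : Function.update (Function.update d i y) i (x i) = d := by
              rw [← hdi]; simp
            have := hR l i (Function.update d i y) (Function.update x i y) (x i) hdm' hxy
              (fun a => by
                by_cases h : a = i
                · rw [h, Function.update_self]; exact hyV
                · rw [Function.update_of_ne h]; exact hdV a) hupd (hxV i) (by rw [hb]; exact hdm)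
              (by rw [hback]; exact hx) (by simp) hQ' (by rw [hb]; exact hQ) hq
            rwa [hback] at this
        · rw [← h, Function.update_eq_self]
        · obtain ⟨d, hdm, hdV, hdi, hdm', hQ, hQ'⟩ := hcommon y hy (x i) (hxV₁ i) h
          have hb : Function.update (Function.update d i (x i)) i y = d := by
            rw [← hdi]; simp
          have hd'V : ∀ a, Function.update d i (x i) a ∈ V := by
            intro a
            by_cases h : a = i
            · rw [h, Function.update_self]; exact hxV i
            · rw [Function.update_of_ne h]; exact hdV a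
          constructor
          · intro hq
            exact hR l i (Function.update d i (x i)) x y hdm' hx hd'V hxV hyV (by rw [hb]; exact hdm)
              hxy (by simp) hQ' (by rw [hb]; exact hQ) hq
          · intro hq
            have := hR l i d (Function.update x i y) (x i) hdm hxy hdV hupd (hxV i) hdm'
              (by rw [hback]; exact hx) (by simp [hdi]) hQ hQ' hq
            rwa [hback] at this
      have hil : i ∉ S l := by
        have h1 : 0 < V₁.card := by
          refine lt_of_lt_of_le ?_ ht
          have : 0 < n := by omega
          positivity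
        obtain ⟨v, hv⟩ := card_pos.1 h1
        rw [hV₁, mem_filter] at hv
        obtain ⟨hvV, hvc⟩ := hv
        simp only [cl, Prod.mk.injEq] at hvc
        have := hf1 v hvV
        rwa [hvc.1, hvc.2.1] at this
      obtain ⟨H, hH, hHn, hHom⟩ := ih V₁ (Function.update S l (insert i (S l))) (by
        intro l' i' hi'
        by_cases hl : l' = l
        · subst hl
          rw [Function.update_self] at hi'
          rcases mem_insert.1 hi' with rfl | h
          · exact hirr
          · exact (hS l' i' h).mono hV₁V
        · rw [Function.update_of_ne hl] at hi'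
          exact (hS l' i' hi').mono hV₁V) (hR.mono hV₁V) (by
        have h1 : ∀ l', (univ \ Function.update S l (insert i (S l)) l').card + (if l' = l then 1 else 0)
            = (univ \ S l').card := by
          intro l'
          by_cases hl : l' = l
          · subst hl
            rw [Function.update_self, if_pos rfl]
            have : univ \ insert i (S l') = (univ \ S l').erase i := by
              ext x
              simp only [mem_sdiff, mem_univ, true_and, mem_insert, mem_erase]
              tauto
            rw [this, card_erase_add_one (by simp [hil])]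
          · rw [Function.update_of_ne hl, if_neg hl, add_zero]
        have h2 := sum_congr rfl (fun l' (_ : l' ∈ (univ : Finset (Fin L))) => h1 l')
        rw [sum_add_distrib, hk, sum_ite_eq' univ l] at h2
        simpa using h2) ht
      exact ⟨H, hH.trans hV₁V, hHn, hHom⟩

theorem polyRam {V : Finset ℕ} (hR : RectOn Q V) (n : ℕ)
    (hV : n * (L * r * n ^ r + 1) ^ (L * r) ≤ V.card) : ∃ H ⊆ V, H.card = n ∧ Hom Q H := by
  refine polyRam_aux n (L * r) V (fun _ => ∅) (fun l i hi => absurd hi (notMem_empty _)) hR ?_ hV
  simp

end Pool.Agent.T3H86.CT
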