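import Pool.Agent.T3H86.CT.Rect
import Pool.Agent.T3H86.CT.PolyRam
import Pool.Agent.N584.TI.Numbers

/-!
# The upper bound
-/

set_option autoImplicit false

namespace Pool.Agent.T3H86.CT

open Finset Pool.Agent.N584.TI
open Pool.Agent.TH360.SR (twr RB)

variable {D : Type} {F : Ops D}

theorem tuple_unique {s : ℕ} {z z' : Fin s → ℕ} (hz : StrictMono z) (hz' : StrictMono z')
    (h : univ.image z = univ.image z') : z = z' := by
  have hc : (univ.image z').card = s := card_tuple hz'
  have h1 := orderEmbOfFin_unique hc (f := z) (fun a => by rw [← h]; exact mem_image_of_mem _ (mem_univ _)) hz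
  have h2 := orderEmbOfFin_unique hc (f := z') (fun a => mem_image_of_mem _ (mem_univ _)) hz'
  exact h1.trans h2.symm

theorem upper_arrow (hF : Idem F) {r s L n N : ℕ} (hs : 1 ≤ s) (hsr : s ≤ r) (hC : Cube F (s + 1))
    (hN : Arrow (κ := Fin L → {J : Finset (Fin r) // J.card = s} → Bool) AllCol s
      (n * (L * r * n ^ r + 1) ^ (L * r)) N) {κ : Type} : Arrow (κ := κ) (Det F L) r n N := by
  classical
  intro c hc
  obtain ⟨m, ν, E, hE, hc⟩ := hc
  have hstar := star_of_cube hF hs hC
  set cw : Finset ℕ → (Fin L → {J : Finset (Fin r) // J.card = s} → Bool) := fun Z l J =>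
    decide (∃ z : Fin s → ℕ, StrictMono z ∧ univ.image z = Z ∧ ∃ g ∈ E l,
      ∀ a, g (J.1.orderEmbOfFin J.2 a) = ν l (z a)) with hcw
  obtain ⟨V, hV, hVc, b, hb⟩ := hN cw trivial
  set Q : Fin L → (Fin r → ℕ) → Prop := fun l x => (fun i => ν l (x i)) ∈ E l with hQ
  have hR : RectOn Q V := by
    intro l i x x' y hx hx' hxV hxV' hy hxy hxy' hxx h1 h2 h3
    refine rect hstar (hE l) hsr i (fun a => ν l (Function.update x' i y a)) ?_ (ν l (x i)) ?_
      (fun a => ν l (Function.update x i y a)) h2 ?_ ?_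
    · intro J hJ
      set ε := J.orderEmbOfFin hJ with hε
      have hw1 : cw (univ.image fun a => x (ε a)) l ⟨J, hJ⟩ = true := by
        rw [hcw]
        simp only [decide_eq_true_eq]
        exact ⟨fun a => x (ε a), hx.comp ε.strictMono, rfl, _, h1, fun a => rfl⟩
      have hw2 : cw (univ.image fun a => x (ε a)) =
          cw (univ.image fun a => Function.update x' i y (ε a)) := by
        have h1 := hb (univ.image fun a => x (ε a)) (mem_of_tuple fun a => hxV _)
          (card_tuple (hx.comp ε.strictMono))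
        have h2 := hb (univ.image fun a => Function.update x' i y (ε a))
          (mem_of_tuple fun a => by
            by_cases h : ε a = i
            · rw [h, Function.update_self]; exact hy
            · rw [Function.update_of_ne h]; exact hxV' _) (card_tuple (hxy'.comp ε.strictMono))
        rw [h1, h2]
      rw [hw2, hcw] at hw1
      simp only [decide_eq_true_eq] at hw1
      obtain ⟨z, hz, hzi, g, hg, hgz⟩ := hw1
      have hz' : z = fun a => Function.update x' i y (ε a) :=
        tuple_unique hz (hxy'.comp ε.strictMono) hzi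
      refine ⟨g, hg, fun j hj => ?_⟩
      have : j ∈ Set.range (J.orderEmbOfFin hJ) := by
        rw [range_orderEmbOfFin]; exact hj
      obtain ⟨a, rfl⟩ := this
      rw [hgz a, hz']
    · convert h3 using 1
      funext a
      by_cases h : a = i
      · rw [h, Function.update_self, hxx]
      · rw [Function.update_of_ne h, Function.update_of_ne h]
    · simp
    · convert h1 using 1
      funext a
      by_cases h : a = i
      · rw [h, Function.update_self]
      · rw [Function.update_of_ne h, Function.update_of_ne h]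
  obtain ⟨H, hH, hHn, hHom⟩ := polyRam hR n hVc.ge
  refine ⟨H, hH.trans hV, hHn, ?_⟩
  by_cases h0 : ∃ A ⊆ H, A.card = r
  · obtain ⟨A₀, hA₀, hA₀c⟩ := h0
    refine ⟨c A₀, fun A hA hAc => ?_⟩
    have hlt : ∀ v ∈ H, v < N := fun v hv => mem_range.1 (hV (hH hv))
    have e1 : A = univ.image (A.orderEmbOfFin hAc) := (univ_image_orderEmb A hAc).symm
    have e2 : A₀ = univ.image (A₀.orderEmbOfFin hA₀c) := (univ_image_orderEmb A₀ hA₀c).symm
    have m1 : ∀ i, A.orderEmbOfFin hAc i ∈ H := fun i => hA (orderEmbOfFin_mem _ _ _)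
    have m2 : ∀ i, A₀.orderEmbOfFin hA₀c i ∈ H := fun i => hA₀ (orderEmbOfFin_mem _ _ _)
    rw [e1, e2]
    refine hc _ _ (A.orderEmbOfFin hAc).strictMono (A₀.orderEmbOfFin hA₀c).strictMono
      (fun i => hlt _ (m1 i)) (fun i => hlt _ (m2 i)) fun l => ?_
    rcases hHom l with h | h
    · exact ⟨fun _ => h _ (A₀.orderEmbOfFin hA₀c).strictMono m2,
        fun _ => h _ (A.orderEmbOfFin hAc).strictMono m1⟩
    · exact ⟨fun h' => absurd h' (h _ (A.orderEmbOfFin hAc).strictMono m1),
        fun h' => absurd h' (h _ (A₀.orderEmbOfFin hA₀c).strictMono m2)⟩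
  · push Not at h0
    exact ⟨c ∅, fun A hA hAc => absurd hAc (h0 A hA)⟩

theorem RB_le' (ℓ M s : ℕ) (hℓ : 1 ≤ ℓ) (hM : 1 ≤ M) :
    RB ℓ M s ≤ twr s ((2 * s).factorial * (2 * ℓ * ℓ) * M) := by
  rcases s with _ | s
  · show ℓ * M ≤ _
    simp only [twr, mul_zero, Nat.factorial_zero, one_mul]
    apply Nat.mul_le_mul_right
    nlinarith
  · refine (Pool.Agent.TH360.SR.RB_le ℓ M hℓ hM s).trans (le_of_eq ?_)
    congr 1
    rw [show 2 * (s + 1) = 2 * s + 2 by ring]
    ring

theorem upper (hF : Idem F) {r s : ℕ} (hs : 1 ≤ s) (hsr : s ≤ r) (hC : Cube F (s + 1)) (L : ℕ) :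
    ∃ C : ℕ, ∀ n N : ℕ, 1 ≤ n → twr (s - 1) (C * n ^ (L * r ^ 2 + 1)) ≤ N →
      ∀ κ : Type, Arrow (κ := κ) (Det F L) r n N := by
  classical
  obtain ⟨t, rfl⟩ : ∃ t, s = t + 1 := ⟨s - 1, by omega⟩
  set Λ := Fin L → {J : Finset (Fin r) // J.card = t + 1} → Bool with hΛ
  set ℓ := Fintype.card Λ with hℓ
  have hℓ1 : 1 ≤ ℓ := Fintype.card_pos
  refine ⟨(2 * t).factorial * (2 * ℓ * ℓ) * (L * r + 1) ^ (L * r), fun n N hn hN κ => ?_⟩
  refine upper_arrow hF hs hsr hC ?_
  apply arrow_of_arr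
  intro c
  set M := n * (L * r * n ^ r + 1) ^ (L * r) with hM
  have hM1 : 1 ≤ M := by
    have : 0 < n * (L * r * n ^ r + 1) ^ (L * r) := by positivity
    omega
  have hM2 : M ≤ (L * r + 1) ^ (L * r) * n ^ (L * r ^ 2 + 1) := by
    have h1 : L * r * n ^ r + 1 ≤ (L * r + 1) * n ^ r := by
      have : 1 ≤ n ^ r := Nat.one_le_pow _ _ hn
      nlinarith
    calc M ≤ n * ((L * r + 1) * n ^ r) ^ (L * r) := by
          rw [hM]
          exact Nat.mul_le_mul_left _ (Nat.pow_le_pow_left h1 _)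
      _ = (L * r + 1) ^ (L * r) * n ^ (L * r ^ 2 + 1) := by
          rw [mul_pow, ← pow_mul, show r * (L * r) = L * r ^ 2 by ring, pow_succ]
          ring
  refine Pool.Agent.TH360.SR.ramsey M t (range N) ?_ c
  rw [card_range]
  refine (RB_le' ℓ M t hℓ1 hM1).trans (le_trans ?_ hN)
  apply Pool.Agent.TH360.SR.twr_mono
  rw [mul_assoc ((2 * t).factorial * (2 * ℓ * ℓ))]
  exact Nat.mul_le_mul_left _ hM2

end Pool.Agent.T3H86.CT
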