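import Pool.Agent.T3H86.CT.Cross
import Pool.Agent.T3H86.CT.Upper

/-!
# The lower bound
-/

set_option autoImplicit false

namespace Pool.Agent.T3H86.CT

open Finset Pool.Agent.N584.TI
open Pool.Agent.TH360.SR (twr)

variable {D : Type} {F : Ops D}

/-- Without cube term of dimension `r` all two-colourings are given by relations. -/
theorem pol_all [Finite D] (hF : Idem F) {r : ℕ} (hC : ¬ Cube F r) (N : ℕ) (c : Finset ℕ → Bool) :
    Pol F r N c := by
  classical
  obtain ⟨U, hU1, hU2, hU⟩ := exists_cross hF hC
  obtain ⟨m, ⟨ε⟩⟩ := Finite.exists_equiv_fin (Fin N × (D × D))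
  refine ⟨m, fun v k => if v = ((ε.symm k).1 : ℕ) then (ε.symm k).2.1 else (ε.symm k).2.2,
    {X | (∀ i w, (fun p : D × D => X i (ε (w, p))) ∈ T2 F) ∧ ∀ y : Fin r → Fin N, StrictMono y →
      c (univ.image fun i => (y i : ℕ)) = false → ∃ i, (fun p : D × D => X i (ε (y i, p))) ∈ U i},
    ?_, ?_⟩
  · intro f hf v hv
    refine ⟨fun i w => T2_app f hf (fun l p => v l i (ε (w, p))) fun l => (hv l).1 i w, ?_⟩
    intro y hy hc
    have := hU f hf (fun l i p => v l i (ε (y i, p))) fun l =>
      ⟨fun i => (hv l).1 i (y i), (hv l).2 y hy hc⟩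
    exact this.2
  · intro x hx hxN
    have hlet : ∀ (a : ℕ) (w : Fin N), (fun p : D × D => if a = ((ε.symm (ε (w, p))).1 : ℕ) then
        (ε.symm (ε (w, p))).2.1 else (ε.symm (ε (w, p))).2.2) =
          if a = w then Prod.fst else Prod.snd := by
      intro a w
      funext p
      simp only [Equiv.symm_apply_apply]
      split_ifs <;> rfl
    constructor
    · intro hc
      refine ⟨fun i w => ?_, fun y hy hcy => ?_⟩
      · show (fun p : D × D => _) ∈ T2 F
        simp only [hlet]
        split_ifs
        · exact fst_mem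
        · exact snd_mem
      · have hne : ∃ i, x i ≠ y i := by
          by_contra h
          push Not at h
          have : x = fun i => (y i : ℕ) := funext h
          rw [this, hcy] at hc
          exact absurd hc (by simp)
        obtain ⟨i, hi⟩ := hne
        refine ⟨i, ?_⟩
        simp only [hlet, if_neg hi]
        exact hU1 i
    · intro h
      by_contra hc
      have hc' : c (univ.image x) = false := by simpa using hc
      obtain ⟨i, hi⟩ := h.2 (fun i => ⟨x i, hxN i⟩) (fun a b hab => hx hab) hc'
      simp only [hlet, if_true] at hi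
      exact hU2 i hi

theorem pol_ext {s d N : ℕ} {c : Finset ℕ → Bool} (h : Pol F s N c) :
    ∃ c' : Finset ℕ → Bool, Pol F (s + d) N c' ∧ ∀ x : Fin (s + d) → ℕ, StrictMono x →
      c' (univ.image x) = c (univ.image fun i => x (Fin.castAdd d i)) := by
  classical
  obtain ⟨m, ν, E, hE, hc⟩ := h
  set c' : Finset ℕ → Bool := fun A => if h : A.card = s + d then
    c (univ.image fun i : Fin s => A.orderEmbOfFin h (Fin.castAdd d i)) else false with hc'
  have key : ∀ x : Fin (s + d) → ℕ, StrictMono x →
      c' (univ.image x) = c (univ.image fun i => x (Fin.castAdd d i)) := by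
    intro x hx
    have h1 : (univ.image x).card = s + d := card_tuple hx
    simp only [hc', dif_pos h1]
    have h2 : x = (univ.image x).orderEmbOfFin h1 :=
      orderEmbOfFin_unique h1 (fun a => mem_image_of_mem _ (mem_univ _)) hx
    rw [← h2]
  refine ⟨c', ⟨m, ν, {X | (fun i => X (Fin.castAdd d i)) ∈ E}, ?_, ?_⟩, key⟩
  · intro f hf v hv
    exact hE f hf _ hv
  · intro x hx hxN
    rw [key x hx]
    exact hc _ (fun a b hab => hx (show Fin.castAdd d a < Fin.castAdd d b from hab)) fun i => hxN _

theorem arrow_lower [Finite D] (hF : Idem F) {s d n N : ℕ} (hC : ¬ Cube F s)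
    (h : Arrow (κ := Bool) (Pol F) (s + d) (n + d) N) : Arrow (κ := Bool) AllCol s n N := by
  classical
  intro c _
  obtain ⟨c', hc', hcc⟩ := pol_ext (d := d) (pol_all hF hC N c)
  obtain ⟨H, hH, hHn, b, hb⟩ := h c' hc'
  set ε := H.orderEmbOfFin hHn with hε
  have hεH : ∀ i, ε i ∈ H := fun i => orderEmbOfFin_mem _ _ _
  refine ⟨univ.image fun i : Fin n => ε (Fin.castAdd d i), ?_, ?_, b, ?_⟩
  · intro v hv
    obtain ⟨i, -, rfl⟩ := mem_image.1 hv
    exact hH (hεH _)
  · rw [card_image_of_injective _ (fun i j hij => by simpa using ε.injective hij), card_univ,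
      Fintype.card_fin]
  · intro A hA hAc
    set x : Fin (s + d) → ℕ := Fin.append (A.orderEmbOfFin hAc) (fun i => ε (Fin.natAdd n i))
      with hx
    have hAS : ∀ a ∈ A, ∀ i : Fin d, a < ε (Fin.natAdd n i) := by
      intro a ha i
      obtain ⟨j, -, rfl⟩ := mem_image.1 (hA ha)
      apply ε.strictMono
      rw [Fin.lt_def]
      simp only [Fin.val_castAdd, Fin.val_natAdd]
      omega
    have hxm : StrictMono x := by
      intro a b hab
      induction a using Fin.addCases with
      | left a =>
        induction b using Fin.addCases with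
        | left b =>
          simp only [hx, Fin.append_left]
          exact (A.orderEmbOfFin hAc).strictMono (show (a : ℕ) < b from hab)
        | right b =>
          simp only [hx, Fin.append_left, Fin.append_right]
          exact hAS _ (orderEmbOfFin_mem _ _ _) b
      | right a =>
        induction b using Fin.addCases with
        | left b =>
          exfalso
          rw [Fin.lt_def] at hab
          simp only [Fin.val_castAdd, Fin.val_natAdd] at hab
          omega
        | right b =>
          simp only [hx, Fin.append_right]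
          apply ε.strictMono
          rw [Fin.lt_def] at hab ⊢
          simpa using hab
    have hxH : ∀ i, x i ∈ H := by
      intro i
      induction i using Fin.addCases with
      | left i =>
        simp only [hx, Fin.append_left]
        obtain ⟨j, -, hj⟩ := mem_image.1 (hA (orderEmbOfFin_mem A hAc i))
        rw [← hj]
        exact hεH _
      | right i =>
        simp only [hx, Fin.append_right]
        exact hεH _
    have h1 := hb _ (mem_of_tuple hxH) (card_tuple hxm)
    rw [hcc x hxm] at h1
    rw [← h1]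
    congr 1
    simp only [hx, Fin.append_left]
    exact (univ_image_orderEmb A hAc).symm

theorem ram_lower [Finite D] (hF : Idem F) {s r : ℕ} (hs : 1 ≤ s) (hsr : s ≤ r)
    (hC : ¬ Cube F s) (n : ℕ) :
    Ram (κ := Bool) AllCol s n ≤ Ram (κ := Bool) (Pol F) r (n + (r - s)) := by
  obtain ⟨d, rfl⟩ := Nat.exists_eq_add_of_le hsr
  rw [Nat.add_sub_cancel_left]
  exact Ram_le (arrow_lower hF hC (Ram_spec (by omega)))

theorem ram_eq [Finite D] (hF : Idem F) {r : ℕ} (hr : 1 ≤ r) (hC : ¬ Cube F r) (n : ℕ) :
    Ram (κ := Bool) (Pol F) r n = Ram (κ := Bool) AllCol r n := by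
  apply le_antisymm
  · exact Ram_sub hr fun _ _ _ _ => trivial
  · have := ram_lower hF hr le_rfl hC n
    rwa [Nat.sub_self, add_zero] at this

theorem pol_det {r N : ℕ} {c : Finset ℕ → Bool} (h : Pol F r N c) : Det F 1 r N c := by
  obtain ⟨m, ν, E, hE, hc⟩ := h
  refine ⟨fun _ => m, fun _ => ν, fun _ => E, fun _ => hE, fun x y hx hy hxN hyN hxy => ?_⟩
  have h1 := hc x hx hxN
  have h2 := hc y hy hyN
  have h3 := hxy 0
  rw [Bool.eq_iff_iff]
  rw [h1, h2]
  exact h3

theorem ram_upper (hF : Idem F) {r s : ℕ} (hs : 1 ≤ s) (hsr : s ≤ r) (hC : Cube F (s + 1)) :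
    ∃ C : ℕ, ∀ n : ℕ, 1 ≤ n →
      Ram (κ := Bool) (Pol F) r n ≤ twr (s - 1) (C * n ^ (r ^ 2 + 1)) := by
  obtain ⟨C, hC⟩ := upper hF hs hsr hC 1
  refine ⟨C, fun n hn => Ram_le ?_⟩
  have := hC n _ hn le_rfl Bool
  rw [one_mul] at this
  exact this.sub fun _ _ _ h => pol_det h

/-! ### The dimension of cube terms -/

theorem Cube.succ (hF : Idem F) {k : ℕ} (h : Cube F k) : Cube F (k + 1) := by
  classical
  obtain ⟨τ, hτ, h⟩ := h
  refine ⟨fun x => τ fun S => x ⟨S.1.map Fin.castSuccEmb, S.2.map⟩, hτ.reindex _, fun i x y => ?_⟩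
  rcases Fin.eq_castSucc_or_eq_last i with ⟨j, rfl⟩ | rfl
  · refine Eq.trans ?_ (h j x y)
    show τ _ = τ _
    congr 1
    funext S
    have : j.castSucc ∈ S.1.map Fin.castSuccEmb ↔ j ∈ S.1 := by
      rw [mem_map]
      constructor
      · rintro ⟨a, ha, hh⟩
        have : a = j := Fin.castSucc_injective _ hh
        rwa [← this]
      · exact fun hj => ⟨j, hj, rfl⟩
    simp only [this]
  · have : ∀ S : {S : Finset (Fin k) // S.Nonempty}, Fin.last k ∉ S.1.map Fin.castSuccEmb := by
      intro S hS
      rw [mem_map] at hS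
      obtain ⟨a, -, ha⟩ := hS
      exact absurd ha (Fin.castSucc_lt_last a).ne
    show τ _ = x
    simp only [this, if_false]
    exact Term.idem hF hτ x

theorem Cube.mono (hF : Idem F) {k k' : ℕ} (hk : k ≤ k') (h : Cube F k) : Cube F k' := by
  induction k', hk using Nat.le_induction with
  | base => exact h
  | succ k' _ ih => exact ih.succ hF

theorem not_cube_one [Nontrivial D] (hF : Idem F) : ¬ Cube F 1 := by
  rintro ⟨τ, hτ, h⟩
  obtain ⟨x, y, hxy⟩ := exists_pair_ne D
  have h1 := h 0 x y
  have h2 : (fun S : {S : Finset (Fin 1) // S.Nonempty} => if (0 : Fin 1) ∈ S.1 then y else x) =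
      fun _ => y := by
    funext S
    obtain ⟨i, hi⟩ := S.2
    have : i = 0 := Subsingleton.elim _ _
    rw [this] at hi
    rw [if_pos hi]
  rw [h2, Term.idem hF hτ] at h1
  exact hxy h1.symm

theorem not_cube_zero [Nontrivial D] (hF : Idem F) : ¬ Cube F 0 := fun h =>
  not_cube_one hF (h.succ hF)

/-- Either there is no cube term, or there is a number `h ≥ 1` such that the dimensions of the cube
terms are the numbers greater than `h`. -/
theorem dichotomy [Nontrivial D] (hF : Idem F) :
    (∀ k, ¬ Cube F k) ∨ ∃ h, 1 ≤ h ∧ ∀ k, Cube F k ↔ h < k := by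
  classical
  by_cases hex : ∃ k, Cube F k
  · right
    set k₀ := Nat.find hex with hk₀
    have h0 : Cube F k₀ := Nat.find_spec hex
    have h1 : 2 ≤ k₀ := by
      by_contra hlt
      have : k₀ = 0 ∨ k₀ = 1 := by omega
      rcases this with h | h
      · rw [h] at h0; exact not_cube_zero hF h0
      · rw [h] at h0; exact not_cube_one hF h0
    refine ⟨k₀ - 1, by omega, fun k => ⟨fun hk => ?_, fun hk => h0.mono hF (by omega)⟩⟩
    have := Nat.find_min' hex hk
    omega
  · left
    push Not at hex
    exact hex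

end Pool.Agent.T3H86.CT
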