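import Pool.Agent.T3H86.CT.Step

/-!
# Closed relations are rectangular if all the small windows are right
-/

set_option autoImplicit false

namespace Pool.Agent.T3H86.CT

open Finset

variable {D : Type} {F : Ops D}

/-- A star term: the arguments are `u`, `v a`, `w a` (`a < s`). -/
def Star (F : Ops D) (s : ℕ) : Prop :=
  ∃ T : (Unit ⊕ (Fin s ⊕ Fin s) → D) → D, Term F T ∧
    (∀ x y, T (Sum.elim (fun _ => y) (Sum.elim (fun _ => x) fun _ => y)) = x) ∧
    ∀ a x y, T (Sum.elim (fun _ => x) (Sum.elim (fun b => if b = a then y else x)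
      fun b => if b = a then y else x)) = x

theorem star_of_cube (hF : Idem F) {s : ℕ} (hs : 1 ≤ s) (hC : Cube F (s + 1)) : Star F s := by
  classical
  obtain ⟨τ, hτ, h⟩ := hasT_fam (c₀ := (0 : Fin (s + 1))) (j' := Fin.last s) hF hC (by
    intro hh
    have := congrArg Fin.val hh
    simp at this
    omega)
  -- the index map
  have huniq : ∀ S ∈ fam ({0} : Finset (Fin (s + 1))), ∀ a b : Fin s, a.succ ∈ S → b.succ ∈ S →
      a = b := by
    intro S hS a b ha hb
    have h2 := hS.2
    rw [card_le_one] at h2
    have := h2 a.succ (mem_sdiff.2 ⟨ha, by simp [Fin.succ_ne_zero]⟩) b.succ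
      (mem_sdiff.2 ⟨hb, by simp [Fin.succ_ne_zero]⟩)
    exact Fin.succ_injective _ this
  let ρ : fam ({0} : Finset (Fin (s + 1))) → Unit ⊕ (Fin s ⊕ Fin s) := fun S =>
    if hh : ∃ a : Fin s, a.succ ∈ S.1 then
      (if 0 ∈ S.1 then Sum.inr (Sum.inr hh.choose) else Sum.inr (Sum.inl hh.choose))
    else Sum.inl ()
  refine ⟨fun x => τ fun S => x (ρ S), hτ.reindex ρ, fun x y => ?_, fun a x y => ?_⟩
  · refine Eq.trans ?_ (h 0 x y)
    show τ _ = τ _
    congr 1
    funext S
    by_cases hh : ∃ a : Fin s, a.succ ∈ S.1
    · by_cases h0 : 0 ∈ S.1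
      · simp [ρ, hh, h0]
      · simp [ρ, hh, h0]
    · have h0 : 0 ∈ S.1 := by
        obtain ⟨i, hi⟩ := S.2.1
        rcases Fin.eq_zero_or_eq_succ i with rfl | ⟨j, rfl⟩
        · exact hi
        · exact absurd ⟨j, hi⟩ hh
      simp [ρ, hh, h0]
  · refine Eq.trans ?_ (h a.succ x y)
    show τ _ = τ _
    congr 1
    funext S
    by_cases hh : ∃ a : Fin s, a.succ ∈ S.1
    · have hc := hh.choose_spec
      have e1 : (hh.choose = a) ↔ a.succ ∈ S.1 := by
        constructor
        · intro e1
          rw [← e1]
          exact hc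
        · intro e1
          exact huniq S.1 S.2 _ _ hc e1
      by_cases h0 : 0 ∈ S.1
      · simp only [ρ, hh, h0, dite_true, if_true, Sum.elim_inr, e1]
      · simp only [ρ, hh, h0, dite_true, if_false, Sum.elim_inr, Sum.elim_inl, e1]
    · have h1 : a.succ ∉ S.1 := fun h1 => hh ⟨a, h1⟩
      simp only [ρ, hh, dite_false, Sum.elim_inl, h1, if_false]

/-- Applying a star term to elements of a closed set. -/
theorem closed_star {s : ℕ} {T : (Unit ⊕ (Fin s ⊕ Fin s) → D) → D} (hT : Term F T) {J B : Type}
    {E : Set (J → B → D)} (hE : Closed F E) {u : J → B → D} (hu : u ∈ E) {v w : Fin s → J → B → D}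
    (hv : ∀ a, v a ∈ E) (hw : ∀ a, w a ∈ E) :
    (fun j b => T (Sum.elim (fun _ => u j b) (Sum.elim (fun a => v a j b) fun a => w a j b))) ∈ E := by
  have := closed_term hT hE (Sum.elim (fun _ => u) (Sum.elim v w)) (by
    rintro (_ | a | a)
    · exact hu
    · exact hv a
    · exact hw a)
  convert this using 1
  funext j b
  congr 1
  funext i
  rcases i with _ | a | a <;> rfl

theorem rect {r s : ℕ} (hS : Star F s) {B : Type} {E : Set (Fin r → B → D)}
    (hE : Closed F E) (hsr : s ≤ r) (i : Fin r) (t : Fin r → B → D)
    (hw : ∀ J : Finset (Fin r), J.card = s → ∃ g ∈ E, ∀ j ∈ J, g j = t j)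
    (c : B → D) (hg : Function.update t i c ∈ E) (w : Fin r → B → D) (hw1 : w ∈ E)
    (hwi : w i = t i) (hw2 : Function.update w i c ∈ E) : t ∈ E := by
  classical
  obtain ⟨T, hT, hT1, hT2⟩ := hS
  have key : ∀ (n : ℕ) (I : Finset (Fin r)), i ∈ I → I.card = n → ∃ g ∈ E, ∀ j ∈ I, g j = t j := by
    intro n
    induction n using Nat.strong_induction_on with
    | _ n ih =>
      intro I hiI hI
      rcases le_or_gt n s with hn | hn
      · obtain ⟨J, hJ1, -, hJ⟩ := exists_subsuperset_card_eq (subset_univ I) (hI.le.trans hn)
          (by rw [card_univ, Fintype.card_fin]; exact hsr)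
        obtain ⟨g, hg, hgJ⟩ := hw J hJ
        exact ⟨g, hg, fun j hj => hgJ j (hJ1 hj)⟩
      · have h1 : s ≤ (I.erase i).card := by
          rw [card_erase_of_mem hiI, hI]
          omega
        obtain ⟨K, hK, hKc⟩ := exists_subset_card_eq h1
        set lv : Fin s → Fin r := fun a => K.orderEmbOfFin hKc a with hlv
        have hlvK : ∀ a, lv a ∈ K := fun a => orderEmbOfFin_mem _ _ _
        have hlvI : ∀ a, lv a ∈ I := fun a => mem_of_mem_erase (hK (hlvK a))
        have hlvi : ∀ a, lv a ≠ i := fun a => ne_of_mem_erase (hK (hlvK a))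
        have hlvinj : Function.Injective lv := (K.orderEmbOfFin hKc).injective
        have hgs : ∀ a, ∃ g ∈ E, ∀ j ∈ I.erase (lv a), g j = t j := by
          intro a
          refine ih (n - 1) (by omega) _ (mem_erase.2 ⟨(hlvi a).symm, hiI⟩) ?_
          rw [card_erase_of_mem (hlvI a), hI]
        choose g hgE hgt using hgs
        have hh := closed_star hT hE hg hgE hgE
        have hq : ∀ a, (fun j b => T (Sum.elim (fun _ => Function.update w i c j b)
            (Sum.elim (fun _ => g a j b) fun _ => w j b))) ∈ E :=
          fun a => closed_star hT hE hw2 (fun _ => hgE a) (fun _ => hw1)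
        refine ⟨_, closed_star hT hE hh hgE hq, fun j hj => ?_⟩
        funext b
        by_cases hji : j = i
        · subst hji
          have e1 : ∀ a, g a j b = t j b := by
            intro a
            rw [hgt a j (mem_erase.2 ⟨(hlvi a).symm, hj⟩)]
          simp only [e1, Function.update_self, hwi]
          exact hT1 _ _
        · have e2 : ∀ a, T (Sum.elim (fun _ => Function.update w i c j b)
              (Sum.elim (fun _ => g a j b) fun _ => w j b)) = g a j b := by
            intro a
            simp only [Function.update_of_ne hji]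
            exact hT1 _ _
          have e3 : T (Sum.elim (fun _ => t j b) (Sum.elim (fun a => g a j b) fun a => g a j b)) =
              t j b := by
            by_cases hl : ∃ a, lv a = j
            · obtain ⟨a, ha⟩ := hl
              have e4 : (fun a' => g a' j b) = fun a' => if a' = a then g a j b else t j b := by
                funext a'
                by_cases haa : a' = a
                · rw [if_pos haa, haa]
                · rw [if_neg haa, hgt a' j (mem_erase.2 ⟨fun h => haa (hlvinj (by rw [← h, ha])), hj⟩)]
              rw [e4]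
              exact hT2 _ _ _
            · push Not at hl
              have e4 : (fun a' => g a' j b) = fun _ => t j b := by
                funext a'
                rw [hgt a' j (mem_erase.2 ⟨fun h => hl a' h.symm, hj⟩)]
              rw [e4]
              exact hT1 _ _
          simp only [e2]
          simp only [Function.update_of_ne hji]
          rw [e3, e3]
  obtain ⟨g, hg, hgt⟩ := key _ univ (mem_univ _) rfl
  have : g = t := funext fun j => hgt j (mem_univ _)
  rwa [← this]

end Pool.Agent.T3H86.CT
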