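import Pool.Agent.T3H86.CT.Terms

/-!
# From cube terms to star terms
-/

set_option autoImplicit false

namespace Pool.Agent.T3H86.CT

open Finset

variable {D : Type} {F : Ops D}

/-- The nonempty sets with at most one element outside `I`. -/
def fam {m : ℕ} (I : Finset (Fin m)) : Set (Finset (Fin m)) := {S | S.Nonempty ∧ (S \ I).card ≤ 1}

/-- The tuple with `w`, `z`, `y` at the places `c₀`, `j`, `j'`, and `p.1` elsewhere. -/
def P3 {m : ℕ} (c₀ j j' : Fin m) (w z y : D × D → D) : Fin m → D × D → D := fun l p =>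
  if l = c₀ then w p else if l = j then z p else if l = j' then y p else p.1

/-- A path crosses. -/
theorem exists_cross_step {α : Type} (z : ℕ → α) (U : α → Prop) (m : ℕ) (h0 : U (z 0))
    (hm : ¬ U (z m)) : ∃ l < m, U (z l) ∧ ¬ U (z (l + 1)) := by
  induction m with
  | zero => exact absurd h0 hm
  | succ m ih =>
    by_cases h : U (z m)
    · exact ⟨m, Nat.lt_succ_self m, h, hm⟩
    · obtain ⟨l, hl, h1, h2⟩ := ih h
      exact ⟨l, by omega, h1, h2⟩

section chain

variable {m : ℕ} (hF : Idem F)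
include hF

/-- The relation given by chains. -/
def chainRel {m : ℕ} (G : Set (Fin m → D × D → D)) (c₀ j j' : Fin m) :
    Set (Fin m → D × D → D) :=
  {w | ∃ z : ℕ → D × D → D, z 0 = Prod.snd ∧ z m = Prod.fst ∧ ∀ l : Fin m, ∃ y : D × D → D,
    P3 c₀ j j' Prod.fst (z l) y ∈ G ∧ P3 c₀ j j' (w l) (z (l + 1)) y ∈ G}

theorem P3_app {c₀ j j' : Fin m} {f : Σ n : ℕ, (Fin n → D) → D} (hf : f ∈ F)
    (w z y : Fin f.1 → D × D → D) :
    (fun l p => f.2 fun i => P3 c₀ j j' (w i) (z i) (y i) l p) =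
      P3 c₀ j j' (fun p => f.2 fun i => w i p) (fun p => f.2 fun i => z i p)
        (fun p => f.2 fun i => y i p) := by
  funext l p
  unfold P3
  split_ifs
  · rfl
  · rfl
  · rfl
  · exact hF f hf _

theorem closed_chainRel {G : Set (Fin m → D × D → D)} (hG : Closed F G) (c₀ j j' : Fin m) :
    Closed F (chainRel G c₀ j j') := by
  intro f hf v hv
  choose z hz0 hzm y hy1 hy2 using hv
  refine ⟨fun t p => f.2 fun i => z i t p, ?_, ?_, fun l => ⟨fun p => f.2 fun i => y i l p, ?_, ?_⟩⟩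
  · funext p
    simp only [hz0]
    exact hF f hf _
  · funext p
    simp only [hzm]
    exact hF f hf _
  · have := hG f hf _ (fun i => hy1 i l)
    rw [P3_app hF hf] at this
    have e1 : (fun p : D × D => f.2 fun _ : Fin f.1 => Prod.fst p) = Prod.fst := by
      funext p
      exact hF f hf _
    rwa [e1] at this
  · have := hG f hf _ (fun i => hy2 i l)
    rwa [P3_app hF hf] at this

omit hF in
theorem P3_e {c₀ j j' : Fin m} {G : Set (Fin m → D × D → D)} {w z y : D × D → D}
    (S : Finset (Fin m)) (hS : e S ∈ G) (hw : ∀ p, w p = e S c₀ p) (hz : j ≠ c₀ → ∀ p, z p = e S j p)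
    (hy : j' ≠ c₀ → j' ≠ j → ∀ p, y p = e S j' p)
    (h : ∀ l ∈ S, l = c₀ ∨ l = j ∨ l = j') : P3 c₀ j j' w z y ∈ G := by
  convert hS using 1
  funext l p
  unfold P3
  split_ifs with h1 h2 h3
  · rw [h1, hw]
  · rw [h2, hz (h2 ▸ h1)]
  · rw [h3, hy (h3 ▸ h1) (h3 ▸ h2)]
  · have : l ∉ S := fun hl => by
      rcases h l hl with h | h | h
      · exact h1 h
      · exact h2 h
      · exact h3 h
    simp [e, this]

omit hF in
theorem e_mem_chainRel {G : Set (Fin m → D × D → D)} {I : Finset (Fin m)}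
    (hG : ∀ S ∈ fam I, e S ∈ G) {c₀ j j' : Fin m} (hc : c₀ ∈ I) (hj : j ∉ I) (hj' : j' ∉ I)
    (hjj : j ≠ j') {S : Finset (Fin m)} (hS : S.Nonempty) : e S ∈ chainRel G c₀ j j' := by
  have hjc : j ≠ c₀ := fun h => hj (h ▸ hc)
  have hjc' : j' ≠ c₀ := fun h => hj' (h ▸ hc)
  have f1 : ({j} : Finset (Fin m)) ∈ fam I :=
    ⟨singleton_nonempty _, (card_le_card sdiff_subset).trans (card_singleton _).le⟩
  have f1' : ({j'} : Finset (Fin m)) ∈ fam I :=
    ⟨singleton_nonempty _, (card_le_card sdiff_subset).trans (card_singleton _).le⟩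
  have f0 : ({c₀} : Finset (Fin m)) ∈ fam I :=
    ⟨singleton_nonempty _, (card_le_card sdiff_subset).trans (card_singleton _).le⟩
  have f2 : ({c₀, j} : Finset (Fin m)) ∈ fam I := by
    refine ⟨insert_nonempty _ _, ?_⟩
    rw [insert_sdiff_of_mem _ hc]
    exact f1.2
  have f2' : ({c₀, j'} : Finset (Fin m)) ∈ fam I := by
    refine ⟨insert_nonempty _ _, ?_⟩
    rw [insert_sdiff_of_mem _ hc]
    exact f1'.2
  obtain ⟨l₀, hl₀⟩ := hS
  have hz : ∀ t : ℕ, t ≤ l₀ → (if t ≤ (l₀ : ℕ) then Prod.snd else Prod.fst : D × D → D) = Prod.snd :=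
    fun t ht => by rw [if_pos ht]
  have hz' : ∀ t : ℕ, ¬ t ≤ l₀ → (if t ≤ (l₀ : ℕ) then Prod.snd else Prod.fst : D × D → D) = Prod.fst :=
    fun t ht => by rw [if_neg ht]
  refine ⟨fun t => if t ≤ (l₀ : ℕ) then Prod.snd else Prod.fst, hz 0 (Nat.zero_le _),
    hz' m (by have := l₀.2; omega), fun l => ?_⟩
  rcases lt_trichotomy (l : ℕ) l₀ with hl | hl | hl
  · refine ⟨Prod.fst, ?_, ?_⟩
    · simp only [hz l hl.le]
      exact P3_e {j} (hG _ f1) (by simp [e, hjc.symm]) (by simp [e]) (by simp [e, hjj.symm]) (by simp)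
    · simp only [hz (l + 1) hl]
      by_cases h : l ∈ S
      · exact P3_e {c₀, j} (hG _ f2) (by simp [e, h]) (by simp [e]) (by simp [e, hjj.symm, hjc'])
          (by simp +contextual)
      · exact P3_e {j} (hG _ f1) (by simp [e, hjc.symm, h]) (by simp [e]) (by simp [e, hjj.symm])
          (by simp)
  · refine ⟨Prod.fst, ?_, ?_⟩
    · simp only [hz l hl.le]
      exact P3_e {j} (hG _ f1) (by simp [e, hjc.symm]) (by simp [e]) (by simp [e, hjj.symm]) (by simp)
    · simp only [hz' (l + 1) (by omega)]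
      have : l ∈ S := by
        have : l = l₀ := Fin.ext hl
        rwa [this]
      exact P3_e {c₀} (hG _ f0) (by simp [e, this]) (by simp [e, hjc]) (by simp [e, hjc']) (by simp)
  · refine ⟨Prod.snd, ?_, ?_⟩
    · simp only [hz' l (by omega)]
      exact P3_e {j'} (hG _ f1') (by simp [e, hjc'.symm]) (by simp [e, hjj]) (by simp [e]) (by simp)
    · simp only [hz' (l + 1) (by omega)]
      by_cases h : l ∈ S
      · exact P3_e {c₀, j'} (hG _ f2') (by simp [e, h]) (by simp [e, hjj, hjc]) (by simp [e])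
          (by simp +contextual)
      · exact P3_e {j'} (hG _ f1') (by simp [e, hjc'.symm, h]) (by simp [e, hjj]) (by simp [e])
          (by simp)

end chain

end Pool.Agent.T3H86.CT
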