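import Pool.Agent.T3H86.CT.Star

/-!
# One step of the induction
-/

set_option autoImplicit false

namespace Pool.Agent.T3H86.CT

open Finset

variable {D : Type} {F : Ops D}

theorem coord_term {m : ℕ} {S : Set (Finset (Fin m))} {v : Fin m → D × D → D} (hv : v ∈ gen F S)
    (i : Fin m) : Term F (fun x : Bool → D => v i (x false, x true)) := by
  classical
  obtain ⟨τ, hτ, h⟩ := hv
  have := hτ.reindex (ι' := Bool) (fun s => decide (i ∈ s.1))
  convert this using 1
  funext x
  rw [h]
  congr 1
  funext s
  by_cases hs : i ∈ s.1 <;> simp [e, hs]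

theorem closed_two {J B : Type} {E : Set (J → B → D)} (hE : Closed F E) {f : D × D → D}
    (hf : Term F (fun x : Bool → D => f (x false, x true))) {v w : J → B → D} (hv : v ∈ E)
    (hw : w ∈ E) : (fun j b => f (v j b, w j b)) ∈ E :=
  closed_term hf hE (fun b => if b then w else v) (by intro b; cases b <;> simpa)

theorem closed_three {J B : Type} {E : Set (J → B → D)} (hE : Closed F E) {q : (Fin 3 → D) → D}
    (hq : Term F q) {u v w : J → B → D} (hu : u ∈ E) (hv : v ∈ E) (hw : w ∈ E) :
    (fun j b => q ![u j b, v j b, w j b]) ∈ E := by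
  have := closed_term hq hE ![u, v, w] (by
    intro i
    fin_cases i
    · exact hu
    · exact hv
    · exact hw)
  convert this using 1
  funext j b
  congr 1
  funext i
  fin_cases i <;> rfl

/-- Substitution of `a l` and `b l` for the letters at the place `l`. -/
def sub {m : ℕ} (a b w : Fin m → D × D → D) : Fin m → D × D → D := fun l p => w l (a l p, b l p)

theorem step {m : ℕ} (hF : Idem F) (hC : Cube F m) {I : Finset (Fin m)} {c₀ j j' : Fin m}
    (hc : c₀ ∈ I) (hj : j ∉ I) (hj' : j' ∉ I) (hjj : j ≠ j') (h : HasT F (fam (insert j I))) :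
    HasT F (fam I) := by
  classical
  by_contra hno
  rw [← zero_mem_gen] at hno
  set G := gen F (fam I) with hGdef
  have hG : Closed F G := closed_gen _
  have heG : ∀ S ∈ fam I, e S ∈ G := fun S hS => e_mem_gen hS
  have hjc : j ≠ c₀ := fun h => hj (h ▸ hc)
  have hjc' : j' ≠ c₀ := fun h => hj' (h ▸ hc)
  have fj : ({j} : Finset (Fin m)) ∈ fam I :=
    ⟨singleton_nonempty _, (card_le_card sdiff_subset).trans (card_singleton _).le⟩
  obtain ⟨z, hz0, hzm, hz⟩ : (e ∅ : Fin m → D × D → D) ∈ chainRel G c₀ j j' :=
    HasT.zero_mem ((cube_iff m).1 hC) (closed_chainRel hF hG _ _ _)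
      (fun S hS => e_mem_chainRel heG hc hj hj' hjj hS)
  have he0 : ∀ l : Fin m, (e ∅ l : D × D → D) = Prod.fst := by
    intro l
    funext p
    simp [e]
  obtain ⟨l, hl, hu, hζ⟩ := exists_cross_step z (fun u => P3 c₀ j j' Prod.fst u Prod.fst ∈ G) m
    (by
      rw [hz0]
      exact P3_e {j} (heG _ fj) (by simp [e, hjc.symm]) (by simp [e]) (by simp [e, hjj.symm])
        (by simp))
    (by
      rw [hzm]
      intro hh
      apply hno
      convert hh using 1
      funext l p
      simp [e, P3])
  obtain ⟨y, hy1, hy2⟩ := hz ⟨l, hl⟩
  rw [he0] at hy2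
  simp only at hy1 hy2
  set u := z l with hudef
  set ζ := z (l + 1) with hζdef
  have hut : Term F (fun x : Bool → D => u (x false, x true)) := by
    have := coord_term hy1 j
    simpa [P3, hjc] using this
  have hζt : Term F (fun x : Bool → D => ζ (x false, x true)) := by
    have := coord_term hy2 j
    simpa [P3, hjc] using this
  have hui : ∀ x, u (x, x) = x := fun x => Term.idem hF hut x
  have hζi : ∀ x, ζ (x, x) = x := fun x => Term.idem hF hζt x
  set a : Fin m → D × D → D := fun l => if l = j then ζ else Prod.fst with ha
  set b : Fin m → D × D → D := fun l => if l = j then u else if l ∈ I then Prod.snd else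
    fun p => ζ (p.2, p.1) with hb
  -- the new relation
  set G' : Set (Fin m → D × D → D) := {w | sub a b w ∈ G} with hG'def
  have hG' : Closed F G' := fun f hf v hv => hG f hf _ hv
  have hno' : (e ∅ : Fin m → D × D → D) ∉ G' := by
    intro hh
    have hh : sub a b (e ∅) ∈ G := hh
    apply hζ
    convert hh using 1
    funext l p
    by_cases h1 : l = j
    · simp [P3, sub, e, ha, h1, hjc]
    · simp [P3, sub, e, ha, h1]
  have hA : ∀ S ∈ fam I, (e S : Fin m → D × D → D) ∈ G' := by
    intro S hS
    by_cases hjS : j ∈ S
    · have hSI : ∀ l ∈ S, l ≠ j → l ∈ I := by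
        intro l hl hlj
        by_contra hlI
        have h1 : ({j, l} : Finset (Fin m)) ⊆ S \ I := by
          intro x hx
          rcases mem_insert.1 hx with rfl | hx
          · exact mem_sdiff.2 ⟨hjS, hj⟩
          · rw [mem_singleton.1 hx]
            exact mem_sdiff.2 ⟨hl, hlI⟩
        have h2 := card_le_card h1
        rw [card_pair hlj.symm] at h2
        have := hS.2
        omega
      by_cases hS' : (S.erase j).Nonempty
      · have f1 : S.erase j ∈ fam I :=
          ⟨hS', (card_le_card (sdiff_subset_sdiff (erase_subset _ _) subset_rfl)).trans hS.2⟩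
        have := closed_two hG hut (heG _ f1) (heG _ hS)
        show sub a b (e S) ∈ G
        convert this using 1
        funext l p
        by_cases h1 : l = j
        · simp [sub, e, hb, h1, hjS]
        · by_cases h2 : l ∈ S
          · simp [sub, e, hb, h1, h2, hSI l h2 h1, hui]
          · simp [sub, e, ha, h1, h2, hui]
      · have hSj : S = {j} := by
          rw [not_nonempty_iff_eq_empty] at hS'
          rw [← insert_erase hjS, hS']
          rfl
        show sub a b (e S) ∈ G
        convert hu using 1
        funext l p
        by_cases h1 : l = j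
        · simp [sub, e, hb, h1, hSj, P3, hjc, hudef]
        · simp [sub, e, ha, h1, hSj, P3]
    · have f1 : insert j (S ∩ I) ∈ fam I := by
        refine ⟨insert_nonempty _ _, ?_⟩
        refine (card_le_card (t := {j}) ?_).trans (card_singleton _).le
        intro x hx
        rw [mem_sdiff, mem_insert, mem_inter] at hx
        rw [mem_singleton]
        tauto
      have := closed_two hG hζt (heG _ hS) (heG _ f1)
      show sub a b (e S) ∈ G
      convert this using 1
      funext l p
      by_cases h1 : l = j
      · simp [sub, e, ha, h1, hjS]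
      · by_cases h2 : l ∈ S
        · by_cases h3 : l ∈ I
          · simp [sub, e, hb, h1, h2, h3, hζi]
          · simp [sub, e, hb, h1, h2, h3]
        · simp [sub, e, ha, h1, h2, hζi]
  have hfam : ∀ S ∈ fam (insert j I), j ∉ S → S ∈ fam I := by
    intro S hS hjS
    refine ⟨hS.1, (card_le_card ?_).trans hS.2⟩
    intro x hx
    rw [mem_sdiff] at hx ⊢
    refine ⟨hx.1, fun h => ?_⟩
    rcases mem_insert.1 h with rfl | h
    · exact hjS hx.1
    · exact hx.2 h
  have hfam' : ∀ S ∈ fam (insert j I), (S.erase j).Nonempty → S.erase j ∈ fam I := by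
    intro S hS hjS
    refine ⟨hjS, (card_le_card ?_).trans hS.2⟩
    intro x hx
    rw [mem_sdiff, mem_erase] at hx
    rw [mem_sdiff, mem_insert]
    tauto
  have hsing : ∀ S : Finset (Fin m), j ∈ S → ¬ (S.erase j).Nonempty → S = {j} := by
    intro S hjS hS'
    rw [not_nonempty_iff_eq_empty] at hS'
    rw [← insert_erase hjS, hS']
    rfl
  by_cases hcase : ∃ q : (Fin 3 → D) → D, Term F q ∧ (∀ x y, q ![x, y, y] = x) ∧
      (fun (l : Fin m) (p : D × D) => if l = j then q ![p.1, p.1, p.2] else p.1) ∈ G'
  · obtain ⟨q, hq, hq1, hq2⟩ := hcase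
    set G'' : Set (Fin m → D × D → D) := {w | (fun (l : Fin m) (p : D × D) =>
      if l = j then w j (p.1, q ![p.1, p.1, p.2]) else w l p) ∈ G'} with hG''def
    have hG'' : Closed F G'' := by
      intro f hf v hv
      have := hG' f hf _ hv
      show (fun (l : Fin m) (p : D × D) => _) ∈ G'
      convert this using 1
      funext l p
      by_cases h1 : l = j <;> simp [h1]
    have hh : (e ∅ : Fin m → D × D → D) ∈ G'' := by
      refine h.zero_mem hG'' fun S hS => ?_
      show (fun (l : Fin m) (p : D × D) => _) ∈ G'
      by_cases hjS : j ∈ S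
      · by_cases hS' : (S.erase j).Nonempty
        · have h1 := closed_three hG hq (hA _ (hfam' S hS hS')) hy2 hy1
          show sub a b _ ∈ G
          convert h1 using 1
          funext l p
          by_cases h1 : l = j
          · subst h1
            simp [sub, e, hjS, ha, hb, P3, hjc]
          · simp only [sub, P3, e, mem_erase, ne_eq, h1, not_false_eq_true, true_and, if_false]
            split_ifs <;> rw [hq1]
        · rw [hsing S hjS hS']
          convert hq2 using 1
          funext l p
          by_cases h1 : l = j <;> simp [e, h1]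
      · convert hA S (hfam S hS hjS) using 1
        funext l p
        by_cases h1 : l = j
        · simp [h1, e, hjS]
        · simp [h1]
    have hh : (fun (l : Fin m) (p : D × D) => if l = j then (e ∅ : Fin m → D × D → D) j
      (p.1, q ![p.1, p.1, p.2]) else (e ∅ : Fin m → D × D → D) l p) ∈ G' := hh
    apply hno'
    convert hh using 1
    funext l p
    simp [e]
  · set G'' : Set (Fin m → D × D → D) := {w | ∃ q : (Fin 3 → D) → D, Term F q ∧
      (∀ p : D × D, w j p = q ![p.1, p.2, p.2]) ∧ (fun (l : Fin m) (p : D × D) =>
      if l = j then q ![p.1, p.1, p.2] else w l p) ∈ G'} with hG''def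
    have hG'' : Closed F G'' := by
      intro f hf v hv
      choose q hq hq1 hq2 using hv
      refine ⟨fun x => f.2 fun i => q i x, Term.app f hf _ hq, fun p => ?_, ?_⟩
      · simp only [hq1]
      · have := hG' f hf _ hq2
        convert this using 1
        funext l p
        by_cases h1 : l = j <;> simp [h1]
    have hh : (e ∅ : Fin m → D × D → D) ∈ G'' := by
      refine h.zero_mem hG'' fun S hS => ?_
      by_cases hjS : j ∈ S
      · by_cases hS' : (S.erase j).Nonempty
        · refine ⟨fun x => x 1, Term.proj _, fun p => by simp [e, hjS], ?_⟩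
          convert hA _ (hfam' S hS hS') using 1
          funext l p
          by_cases h1 : l = j <;> simp [e, h1]
        · rw [hsing S hjS hS']
          refine ⟨fun x => x 2, Term.proj _, fun p => by simp [e], ?_⟩
          convert hA _ fj using 1
          funext l p
          by_cases h1 : l = j <;> simp [e, h1]
      · refine ⟨fun x => x 0, Term.proj _, fun p => by simp [e, hjS], ?_⟩
        convert hA S (hfam S hS hjS) using 1
        funext l p
        by_cases h1 : l = j <;> simp [e, h1, hjS]
    obtain ⟨q, hq, hq1, hq2⟩ := hh
    refine hcase ⟨q, hq, fun x y => ?_, ?_⟩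
    · have := hq1 (x, y)
      simpa [e] using this.symm
    · convert hq2 using 1
      funext l p
      by_cases h1 : l = j <;> simp [e, h1]

theorem hasT_fam {m : ℕ} (hF : Idem F) (hC : Cube F m) {c₀ j' : Fin m} (hcj : c₀ ≠ j') :
    HasT F (fam {c₀}) := by
  classical
  have key : ∀ (k : ℕ) (I : Finset (Fin m)), (univ \ I).card = k → c₀ ∈ I → j' ∉ I →
      HasT F (fam I) := by
    intro k
    induction k with
    | zero =>
      intro I hI _ hj'
      rw [card_eq_zero, sdiff_eq_empty_iff_subset] at hI
      exact absurd (hI (mem_univ _)) hj'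
    | succ k ih =>
      intro I hI hc hj'
      by_cases hx : ∃ j, j ∉ I ∧ j ≠ j'
      · obtain ⟨j, hj, hjj⟩ := hx
        refine step hF hC hc hj hj' hjj (ih _ ?_ (mem_insert_of_mem hc) ?_)
        · have : univ \ insert j I = (univ \ I).erase j := by
            ext x
            simp only [mem_sdiff, mem_univ, true_and, mem_insert, mem_erase]
            tauto
          rw [this, card_erase_of_mem (by simp [hj]), hI]
          rfl
        · rw [mem_insert]
          push Not
          exact ⟨hjj.symm, hj'⟩
      · push Not at hx
        refine ((cube_iff m).1 hC).mono fun S hS => ⟨hS, ?_⟩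
        refine (card_le_card (t := {j'}) fun x hx' => ?_).trans (card_singleton _).le
        rw [mem_sdiff] at hx'
        rw [mem_singleton]
        exact hx x hx'.2
  exact key _ {c₀} rfl (mem_singleton_self _) (by rw [mem_singleton]; exact hcj.symm)

end Pool.Agent.T3H86.CT
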