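import Pool.Agent.T3H86.CT.Defs

/-!
# Terms and closed relations
-/

set_option autoImplicit false

namespace Pool.Agent.T3H86.CT

open Finset

variable {D : Type} {F : Ops D} {J B : Type}

theorem closed_term {ι : Type} {τ : (ι → D) → D} (hτ : Term F τ) {E : Set (J → B → D)}
    (hE : Closed F E) (v : ι → J → B → D) (hv : ∀ i, v i ∈ E) :
    (fun j b => τ fun i => v i j b) ∈ E := by
  induction hτ with
  | proj i => exact hv i
  | app f hf g hg ih => exact hE f hf (fun l j b => g l fun i => v i j b) ih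

theorem Term.comp {ι ι' : Type} {τ : (ι → D) → D} (hτ : Term F τ) (σ : ι → (ι' → D) → D)
    (hσ : ∀ i, Term F (σ i)) : Term F (fun x => τ fun i => σ i x) := by
  induction hτ with
  | proj i => exact hσ i
  | app f hf g hg ih => exact Term.app f hf (fun l x => g l fun i => σ i x) ih

theorem Term.reindex {ι ι' : Type} {τ : (ι → D) → D} (hτ : Term F τ) (ρ : ι → ι') :
    Term F (fun x : ι' → D => τ fun i => x (ρ i)) :=
  hτ.comp (fun i x => x (ρ i)) fun i => Term.proj (ρ i)

theorem Term.idem (hF : Idem F) {ι : Type} {τ : (ι → D) → D} (hτ : Term F τ) (x : D) :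
    τ (fun _ => x) = x := by
  induction hτ with
  | proj i => rfl
  | app f hf g hg ih =>
    have : (fun l => g l fun _ => x) = fun _ => x := funext ih
    show f.2 (fun l => g l fun _ => x) = x
    rw [this]
    exact hF f hf x

/-- The smallest closed set which contains `X`. -/
def Sg (F : Ops D) (X : Set (J → B → D)) : Set (J → B → D) :=
  {v | ∀ R, Closed F R → X ⊆ R → v ∈ R}

theorem closed_Sg (X : Set (J → B → D)) : Closed F (Sg F X) := by
  intro f hf v hv R hR hX
  exact hR f hf v fun l => hv l R hR hX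

theorem subset_Sg (X : Set (J → B → D)) : X ⊆ Sg F X := fun _ hv _ _ hX => hX hv

theorem Sg_le {X R : Set (J → B → D)} (hR : Closed F R) (hX : X ⊆ R) : Sg F X ⊆ R :=
  fun _ hv => hv R hR hX

/-- Terms for families of sets. -/
def HasT (F : Ops D) {m : ℕ} (S : Set (Finset (Fin m))) : Prop :=
  ∃ τ : (S → D) → D, Term F τ ∧ ∀ (i : Fin m) (x y : D), τ (fun s => if i ∈ s.1 then y else x) = x

theorem cube_iff (k : ℕ) : Cube F k ↔ HasT F {S : Finset (Fin k) | S.Nonempty} := Iff.rfl

theorem HasT.mono {m : ℕ} {S S' : Set (Finset (Fin m))} (h : S ⊆ S') (hS : HasT F S) :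
    HasT F S' := by
  obtain ⟨τ, hτ, hτ'⟩ := hS
  refine ⟨fun x => τ fun s => x ⟨s.1, h s.2⟩, hτ.reindex _, fun i x y => hτ' i x y⟩

/-- The tuple with letter `p.2` at the places in `S` and `p.1` at the other places. -/
def e {m : ℕ} (S : Finset (Fin m)) : Fin m → D × D → D := fun i p => if i ∈ S then p.2 else p.1

/-- The relation generated by the `e S`. -/
def gen (F : Ops D) {m : ℕ} (S : Set (Finset (Fin m))) : Set (Fin m → D × D → D) :=
  {v | ∃ τ : (S → D) → D, Term F τ ∧ ∀ i p, v i p = τ (fun s => e s.1 i p)}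

theorem closed_gen {m : ℕ} (S : Set (Finset (Fin m))) : Closed F (gen F S) := by
  intro f hf v hv
  choose τ hτ hv using hv
  refine ⟨fun x => f.2 fun l => τ l x, Term.app f hf _ hτ, fun i p => ?_⟩
  simp only [hv]

theorem e_mem_gen {m : ℕ} {S : Set (Finset (Fin m))} {s : Finset (Fin m)} (hs : s ∈ S) :
    (e s : Fin m → D × D → D) ∈ gen F S :=
  ⟨fun x => x ⟨s, hs⟩, Term.proj _, fun _ _ => rfl⟩

theorem zero_mem_gen {m : ℕ} {S : Set (Finset (Fin m))} :
    (e ∅ : Fin m → D × D → D) ∈ gen F S ↔ HasT F S := by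
  constructor
  · rintro ⟨τ, hτ, h⟩
    refine ⟨τ, hτ, fun i x y => ?_⟩
    have := h i (x, y)
    simp only [e, Finset.notMem_empty, if_false] at this
    exact this.symm
  · rintro ⟨τ, hτ, h⟩
    refine ⟨τ, hτ, fun i p => ?_⟩
    have := h i p.1 p.2
    simp only [e, Finset.notMem_empty, if_false]
    exact this.symm

theorem HasT.zero_mem {m : ℕ} {S : Set (Finset (Fin m))} (h : HasT F S)
    {G : Set (Fin m → D × D → D)} (hG : Closed F G) (hS : ∀ s ∈ S, e s ∈ G) : e ∅ ∈ G := by
  obtain ⟨τ, hτ, h⟩ := h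
  have := closed_term hτ hG (fun s => e s.1) (fun s => hS s.1 s.2)
  convert this using 1
  funext i p
  simp only [e, Finset.notMem_empty, if_false]
  exact (h i p.1 p.2).symm

end Pool.Agent.T3H86.CT
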